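import Pool.Agent.Q43.UN.Prog
import Pool.Agent.TH888.R.Base
import Pool.Agent.TH888.C.Val

set_option autoImplicit false

/-!
# The law in progressions, uniformly in the modulus, for shift families and curve families

The deductions from the systems are those of `Pool.Agent.TH888.R.Base` and `Pool.Agent.TH888.C.Val`.
-/

namespace Pool.Agent.Q43.UN

open Finset Filter Topology MeasureTheory Asymptotics
open Pool.Agent.TH888.R
open Pool.Agent.H447R2.ML (Sh sh_of ff_eq_ceil)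
open Pool.Agent.H305R2 (roughPart ff)
open Pool.Agent.W66X (ysh measurable_ysh trans_shift near_shift pert8 exp_ysh ae_of_exp')

/-- consequence of the uniform law for the least exponent in a residue class -/
theorem UPt.least {s : ℕ → ℕ} {c : ℝ} (hc : 0 < c) (h : UPt s c) {ε : ℝ} (hε : 0 < ε) :
    ∃ Q : ℕ, ∀ q a : ℕ, Q ≤ q → a.Coprime q → ∃ p : ℕ, p.Prime ∧ p ≡ a [MOD q] ∧
      (roughPart p (s p)).Prime ∧ (p : ℝ) ≤ Real.exp ((q : ℝ) ^ (3 + ε)) := by
  classical
  set δ : ℝ := ε / (8 * (4 + ε)) with hδ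
  have hδ0 : 0 < δ := by positivity
  have hδ8 : δ * (8 * (4 + ε)) = ε := by
    rw [hδ]; field_simp
  have hδ2 : δ < 1 / 2 := by nlinarith
  obtain ⟨B, hB, hBn⟩ := h δ hδ0
  -- the exponent gained
  have hθ : 3 / 2 + δ + δ ≤ (3 + ε) * (1 / 2 - δ) := by nlinarith
  have hlim : Tendsto (fun q : ℕ => (c / ((B + 1) * 4)) * (q : ℝ) ^ δ) atTop atTop :=
    ((tendsto_rpow_atTop hδ0).comp tendsto_natCast_atTop_atTop).const_mul_atTop (by positivity)
  obtain ⟨Q, hQ⟩ := eventually_atTop.1 (hlim.eventually (eventually_gt_atTop 1))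
  refine ⟨max Q 2, fun q a hq ha => ?_⟩
  have hq2 : 2 ≤ q := (le_max_right _ _).trans hq
  have hq1 : (1 : ℝ) ≤ q := by exact_mod_cast (by omega : 1 ≤ q)
  have hq0 : (0 : ℝ) < q := by linarith
  have hgain := hQ q ((le_max_left _ _).trans hq)
  set X := (q : ℝ) ^ (3 + ε) with hX
  have hX8 : 8 ≤ X := by
    have h2 : (2 : ℝ) ≤ q := by exact_mod_cast hq2
    calc (8 : ℝ) = 2 ^ (3 : ℝ) := by
          rw [show (3 : ℝ) = ((3 : ℕ) : ℝ) by norm_num, Real.rpow_natCast]; norm_num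
      _ ≤ (q : ℝ) ^ (3 : ℝ) := by gcongr
      _ ≤ X := Real.rpow_le_rpow_of_exponent_le hq1 (by linarith)
  have hX0 : 0 < X := by linarith
  obtain ⟨n, hn⟩ : ∃ n : ℕ, n = ⌊Real.exp X⌋₊ := ⟨_, rfl⟩
  have hnle : (n : ℝ) ≤ Real.exp X := by rw [hn]; exact Nat.floor_le (Real.exp_pos X).le
  have hnge : Real.exp (X / 2) ≤ n := by
    have h1 : Real.exp X < n + 1 := by rw [hn]; exact Nat.lt_floor_add_one _
    have h2 : Real.exp X = Real.exp (X / 2) * Real.exp (X / 2) := by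
      rw [← Real.exp_add]; congr 1; ring
    have h3 : (2 : ℝ) ≤ Real.exp (X / 2) := by
      have := Real.add_one_le_exp (X / 2)
      linarith
    nlinarith
  have hn3 : 3 ≤ n := by
    have h1 := Real.add_one_le_exp (X / 2)
    have : (3 : ℝ) ≤ n := by linarith
    exact_mod_cast this
  have hn0 : (0 : ℝ) < n := by exact_mod_cast (by omega : 0 < n)
  have hℓ1 : X / 2 ≤ Real.log n := (Real.le_log_iff_exp_le hn0).2 hnge
  have hℓ2 : Real.log n ≤ X := by
    rw [← Real.log_exp X]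
    exact Real.log_le_log hn0 hnle
  set ℓ := Real.log n with hℓ
  have hℓ0 : 0 < ℓ := by linarith
  have hφ0 : (0 : ℝ) < Nat.totient q := by exact_mod_cast Nat.totient_pos.2 (by omega)
  have hφq : (Nat.totient q : ℝ) ≤ q := by exact_mod_cast Nat.totient_le q
  have hmain := (abs_le.1 (hBn n hn3 q a (by omega) ha)).1
  rw [← hℓ] at hmain
  have hpos : 0 < (cS (Cl q a) s n : ℝ) := by
    have h1 : c * (ℓ / q) ≤ c * (ℓ / Nat.totient q) := by gcongr
    have h2 : B * ((q : ℝ) ^ (1 / 2 + δ) * ℓ ^ (1 / 2 + δ)) < c * (ℓ / q) := by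
      have h3 : ℓ ^ (1 / 2 + δ) * ℓ ^ (1 / 2 - δ) = ℓ := by
        rw [← Real.rpow_add hℓ0]; norm_num
      have h4 : (q : ℝ) ^ (1 / 2 + δ) * q = (q : ℝ) ^ (3 / 2 + δ) := by
        nth_rewrite 2 [← Real.rpow_one (q : ℝ)]
        rw [← Real.rpow_add hq0]
        congr 1
        ring
      have h5 : (q : ℝ) ^ (3 / 2 + δ) * (q : ℝ) ^ δ ≤ 4 * ℓ ^ (1 / 2 - δ) := by
        rw [← Real.rpow_add hq0]
        calc (q : ℝ) ^ (3 / 2 + δ + δ) ≤ (q : ℝ) ^ ((3 + ε) * (1 / 2 - δ)) :=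
              Real.rpow_le_rpow_of_exponent_le hq1 hθ
          _ = X ^ (1 / 2 - δ) := by rw [hX, ← Real.rpow_mul hq0.le]
          _ ≤ (2 * ℓ) ^ (1 / 2 - δ) := Real.rpow_le_rpow hX0.le (by linarith) (by linarith)
          _ = 2 ^ (1 / 2 - δ) * ℓ ^ (1 / 2 - δ) := Real.mul_rpow (by norm_num) hℓ0.le
          _ ≤ 4 * ℓ ^ (1 / 2 - δ) := by
              gcongr
              calc (2 : ℝ) ^ (1 / 2 - δ) ≤ 2 ^ (1 : ℝ) :=
                    Real.rpow_le_rpow_of_exponent_le (by norm_num) (by linarith)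
                _ ≤ 4 := by norm_num
      have h6 : 0 < ℓ ^ (1 / 2 + δ) := by positivity
      have h7 : 0 < (q : ℝ) ^ (3 / 2 + δ) := by positivity
      have h8 : 0 < (q : ℝ) ^ δ := by positivity
      rw [← mul_div_assoc, lt_div_iff₀ hq0]
      have h9 : B * ((q : ℝ) ^ (1 / 2 + δ) * ℓ ^ (1 / 2 + δ)) * q = B * (q : ℝ) ^ (3 / 2 + δ) * ℓ ^ (1 / 2 + δ) := by
        rw [← h4]; ring
      rw [h9]
      have h10 : (B + 1) * 4 < c * (q : ℝ) ^ δ := by
        have h11 : c / ((B + 1) * 4) * (q : ℝ) ^ δ = c * (q : ℝ) ^ δ / ((B + 1) * 4) := by ring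
        rw [h11, lt_div_iff₀ (by positivity), one_mul] at hgain
        exact hgain
      have h12 : B * (q : ℝ) ^ (3 / 2 + δ) < c * ℓ ^ (1 / 2 - δ) := by
        have h13 : 0 < ℓ ^ (1 / 2 - δ) := by positivity
        have h14 : 4 * (B + 1) * (q : ℝ) ^ (3 / 2 + δ) < 4 * (c * ℓ ^ (1 / 2 - δ)) := by
          calc 4 * (B + 1) * (q : ℝ) ^ (3 / 2 + δ) = ((B + 1) * 4) * (q : ℝ) ^ (3 / 2 + δ) := by ring
            _ < (c * (q : ℝ) ^ δ) * (q : ℝ) ^ (3 / 2 + δ) := by gcongr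
            _ = c * ((q : ℝ) ^ (3 / 2 + δ) * (q : ℝ) ^ δ) := by ring
            _ ≤ c * (4 * ℓ ^ (1 / 2 - δ)) := by gcongr
            _ = _ := by ring
        nlinarith
      calc B * (q : ℝ) ^ (3 / 2 + δ) * ℓ ^ (1 / 2 + δ) < c * ℓ ^ (1 / 2 - δ) * ℓ ^ (1 / 2 + δ) := by gcongr
        _ = c * (ℓ ^ (1 / 2 + δ) * ℓ ^ (1 / 2 - δ)) := by ring
        _ = c * ℓ := by rw [h3]
    linarith
  have hcard : 0 < cS (Cl q a) s n := by exact_mod_cast hpos
  unfold cS at hcard
  obtain ⟨p, hp⟩ := Finset.card_pos.1 hcard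
  rw [mem_filter, mem_range] at hp
  refine ⟨p, hp.2.1, hp.2.2.1, hp.2.2.2, le_trans ?_ hnle⟩
  exact_mod_cast (by omega : p ≤ n)

section

variable {α κ C : ℝ} {g : ℕ → ℝ}

open Pool.Agent.H447R2.ML (ff_eq_floor)

/-- the integers `⌈β α ^ p + g p⌉ - 1` -/
theorem upt_ceil (hα : 1 < α) (hκ0 : 0 ≤ κ) (hκ : κ < α) (hg : ∀ p, |g p| ≤ C * κ ^ p)
    (hnear : Near α g) : ∀ᵐ β : ℝ, 0 < β →
      UPt (fun p => ⌈β * α ^ p + g p⌉₊ - 1) (Real.exp Real.eulerMascheroniConstant / Real.log α) := by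
  have hα0 : 0 < α := by linarith
  refine ae_of_exp' (P := fun β : ℝ => UPt (fun p => ⌈β * α ^ p + g p⌉₊ - 1)
    (Real.exp Real.eulerMascheroniConstant / Real.log α)) (ae_windows fun b0 => ?_)
  refine upt (sys_ysh hα hκ0 hκ hg hnear b0) (s := fun t p => ⌈Real.exp t * α ^ p + g p⌉₊ - 1)
    (Eventually.of_forall fun t => ?_)
  obtain ⟨P, hP⟩ := eventually_atTop.1 (pert8 hα0 hκ0 hκ hg t 8)
  exact ⟨P, fun p hp _ => ff_eq_ceil (exp_ysh hα0 (hP p hp) le_rfl).2.1⟩

/-- the integers `⌊β α ^ p + g p⌋` -/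
theorem upt_floor (hα : 1 < α) (hκ0 : 0 ≤ κ) (hκ : κ < α) (hg : ∀ p, |g p| ≤ C * κ ^ p)
    (hnear : Near α g) : ∀ᵐ β : ℝ, 0 < β →
      UPt (fun p => ⌊β * α ^ p + g p⌋₊) (Real.exp Real.eulerMascheroniConstant / Real.log α) := by
  have hα0 : 0 < α := by linarith
  have h2 : ∀ᵐ t : ℝ, ∀ p m : ℕ, Real.exp t * α ^ p + g p ≠ m := by
    have hnull : volume (⋃ p : ℕ, ⋃ m : ℕ, {t : ℝ | Real.exp t * α ^ p + g p = m}) = 0 := by
      refine Set.Countable.measure_zero ?_ volume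
      refine Set.countable_iUnion fun p => Set.countable_iUnion fun m => ?_
      refine Set.Subsingleton.countable ?_
      intro s hs t ht
      simp only [Set.mem_ofPred_eq] at hs ht
      have h3 : Real.exp s * α ^ p = Real.exp t * α ^ p := by linarith
      exact Real.exp_injective (mul_right_cancel₀ (pow_pos hα0 p).ne' h3)
    have hae : ∀ᵐ t : ℝ, t ∉ ⋃ p : ℕ, ⋃ m : ℕ, {t : ℝ | Real.exp t * α ^ p + g p = m} := by
      rw [ae_iff]
      refine measure_mono_null (fun t ht => ?_) hnull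
      simpa only [Set.mem_ofPred_eq, not_not] using ht
    filter_upwards [hae] with t ht p m hm
    refine ht ?_
    simp only [Set.mem_iUnion]
    exact ⟨p, m, hm⟩
  refine ae_of_exp' (P := fun β : ℝ => UPt (fun p => ⌊β * α ^ p + g p⌋₊)
    (Real.exp Real.eulerMascheroniConstant / Real.log α)) (ae_windows fun b0 => ?_)
  refine upt (sys_ysh hα hκ0 hκ hg hnear b0) (s := fun t p => ⌊Real.exp t * α ^ p + g p⌋₊) ?_
  filter_upwards [ae_restrict_of_ae h2] with t htn
  obtain ⟨P, hP⟩ := eventually_atTop.1 (pert8 hα0 hκ0 hκ hg t 8)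
  exact ⟨P, fun p hp _ => ff_eq_floor (exp_ysh hα0 (hP p hp) le_rfl).2.1 (fun m => htn p m)⟩

end

section

open Pool.Agent.TH888.C
open Pool.Agent.W66C
open Pool.Agent.H447R2.ML (Loc C1 ff_eq_floor)

/-- **The statements for curve families.** -/
theorem upt_cur {c0 : ℝ} (hc0 : 0 ≤ c0) {h1 : ℝ → ℝ} {y y' y'' : ℕ → ℝ → ℝ}
    (hym : ∀ p, Measurable (y p))
    (hfam : ∀ a0 a1 : ℝ, c0 < a0 → a0 < a1 → ∃ D : ℝ, 0 ≤ D ∧
      ∀ᶠ p : ℕ in atTop, Cur a0 a1 D h1 p (y p) (y' p) (y'' p)) {s : ℝ → ℕ → ℕ}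
    (hs : ∀ᵐ t : ℝ, c0 < t → ∃ P : ℕ, ∀ p ≥ P, p.Prime →
      ff p (y p t) = if (roughPart p (s t p)).Prime then 1 else 0) :
    ∀ᵐ t : ℝ, c0 < t → UPt (s t) (Real.exp Real.eulerMascheroniConstant / t) := by
  refine ae_win fun b0 b1 hb0 hb01 => ?_
  have hfin : IsFiniteMeasure (volume.restrict (Set.Ioc b0 b1)) := ⟨by simp⟩
  have hmem : ∀ᵐ t ∂(volume.restrict (Set.Ioc b0 b1)), t ∈ Set.Ioc b0 b1 :=
    ae_restrict_mem measurableSet_Ioc
  refine Pool.Agent.Q43.UN.upt (sys_cur hc0 hym hfam b0 b1 hb0 hb01) ?_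
  filter_upwards [ae_restrict_of_ae hs, hmem] with t ht htm
  exact ht (hb0.trans htm.1)

/-- **The statements for the integer parts of a curve family.** -/
theorem upt_val {c0 : ℝ} (hc0 : 0 ≤ c0) {h1 : ℝ → ℝ} {y y' y'' : ℕ → ℝ → ℝ}
    (hym : ∀ p, Measurable (y p))
    (hfam : ∀ a0 a1 : ℝ, c0 < a0 → a0 < a1 → ∃ D : ℝ, 0 ≤ D ∧
      ∀ᶠ p : ℕ in atTop, Cur a0 a1 D h1 p (y p) (y' p) (y'' p)) {val : ℕ → ℝ → ℝ}
    (hval : ∀ t, c0 < t → ∀ᶠ p : ℕ in atTop, p.Prime → 0 < val p t ∧ Real.log (val p t) = y p t)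
    : ∀ᵐ t : ℝ, c0 < t → UPt (fun p => ⌊val p t⌋₊) (Real.exp Real.eulerMascheroniConstant / t) := by
  refine upt_cur hc0 hym hfam (s := fun t p => ⌊val p t⌋₊) ?_
  filter_upwards [ne_nat_ae hfam] with t h3 htc
  obtain ⟨P1, hP1⟩ := h3 htc
  obtain ⟨P2, hP2⟩ := eventually_atTop.1 (hval t htc)
  refine ⟨P1 + P2, fun p hp hpp => ?_⟩
  obtain ⟨h4, h5⟩ := hP2 p (by omega) hpp
  rw [← h5]
  refine ff_eq_floor h4 fun m hm => hP1 p (by omega) m ?_
  rw [← h5, Real.exp_log h4]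
  exact hm

/-- **The statements for `A x * (x ^ p - c ^ p)`, almost every real `x > max 1 |c|`.** -/
theorem upt_curve (c : ℝ) {A : ℝ → ℝ} (hA : ContDiffOn ℝ 2 A (Set.Ioi (max 1 |c|)))
    (hApos : ∀ x, max 1 |c| < x → 0 < A x) : ∀ᵐ x : ℝ, max 1 |c| < x →
    UPt (fun p => ⌊A x * (x ^ p - c ^ p)⌋₊) (Real.exp Real.eulerMascheroniConstant / Real.log x) := by
  set c0 := Real.log (max 1 |c|) with hc0d
  have hmax : (1 : ℝ) ≤ max 1 |c| := le_max_left _ _
  have hmax0 : (0 : ℝ) < max 1 |c| := by linarith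
  have hc0 : 0 ≤ c0 := Real.log_nonneg hmax
  set s : ℝ := -(SignType.sign c : ℝ) with hs
  have hs1 : |s| ≤ 1 := by
    rw [hs, abs_neg]
    rcases lt_trichotomy c 0 with h | h | h
    · rw [sign_neg h]; simp
    · rw [h]; simp
    · rw [sign_pos h]; simp
  have hmc : Real.log |c| ≤ 1 * c0 := by
    rw [one_mul, hc0d]
    rcases (abs_nonneg c).eq_or_lt with h | h
    · rw [← h, Real.log_zero]
      exact Real.log_nonneg (le_max_left _ _)
    · exact Real.log_le_log h (le_max_right _ _)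
  have hexp : ∀ t, c0 < t → max 1 |c| < Real.exp t := fun t ht => (Real.log_lt_iff_lt_exp hmax0).1 ht
  obtain ⟨H, H', H'', hHm, hHe, hH1, hH2, hH3⟩ := amp (c0 := c0) hA hApos (g := Real.exp)
    (g' := Real.exp) (g'' := Real.exp) Real.measurable_exp Real.hasDerivAt_exp Real.hasDerivAt_exp
    Real.continuous_exp hexp
  have hfam := fam_cur (m1 := 1) (m0 := Real.log |c|) (s := s) (c0 := c0) one_pos hs1 hmc hH1 hH2 hH3
  have hlaw := upt_val hc0 (fun p => measurable_yy 1 (Real.log |c|) s hHm p) hfam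
    (val := fun p t => A (Real.exp t) * ((Real.exp t) ^ p - c ^ p)) (by
      intro t ht
      filter_upwards [eventually_ge_atTop 3] with p hp hpp
      have hodd : Odd p := hpp.odd_of_ne_two (by omega)
      have h1 := hexp t ht
      have h2 : |c| < Real.exp t := (le_max_right _ _).trans_lt h1
      have h3 : |c ^ p| < (Real.exp t) ^ p := by
        rw [abs_pow]
        exact pow_lt_pow_left₀ h2 (abs_nonneg _) (by omega)
      have h4 : 0 < (Real.exp t) ^ p - c ^ p := by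
        have := le_abs_self (c ^ p)
        linarith
      have hE : 0 < Real.exp t ^ p := by positivity
      have hAp := hApos _ h1
      refine ⟨mul_pos hAp h4, ?_⟩
      rw [Real.log_mul hAp.ne' h4.ne']
      have e1 : s * Real.exp (-(p * (1 * t - Real.log |c|))) = -(c ^ p / (Real.exp t) ^ p) := by
        rcases (abs_nonneg c).eq_or_lt with h | h
        · have hc : c = 0 := abs_eq_zero.1 h.symm
          have hp0 : p ≠ 0 := by omega
          rw [hs, hc]
          simp [hp0]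
        · have e2 : Real.exp (-(p * (1 * t - Real.log |c|))) = |c| ^ p / (Real.exp t) ^ p := by
            have e3 : -((p : ℝ) * (1 * t - Real.log |c|)) = (p : ℝ) * Real.log |c| - p * t := by ring
            rw [e3, Real.exp_sub, Real.exp_nat_mul, Real.exp_nat_mul, Real.exp_log h]
          rw [e2]
          have e4 : s * |c| ^ p = -c ^ p := by
            rw [hs]
            rcases lt_or_gt_of_ne (abs_pos.1 h) with h5 | h5
            · rw [sign_neg h5, abs_of_neg h5, hodd.neg_pow]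
              simp
            · rw [sign_pos h5, abs_of_pos h5]
              simp
          rw [← mul_div_assoc, e4, neg_div]
      have e5 : (Real.exp t) ^ p - c ^ p = (Real.exp t) ^ p * (1 + -(c ^ p / (Real.exp t) ^ p)) := by
        field_simp
        ring
      have h6 : 0 < 1 + -(c ^ p / (Real.exp t) ^ p) := by
        have : c ^ p / (Real.exp t) ^ p < 1 := by
          rw [div_lt_one hE]
          linarith
        linarith
      unfold yy
      rw [e1, e5, Real.log_mul hE.ne' h6.ne', ← Real.exp_nat_mul, Real.log_exp, hHe t ht]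
      ring)
  have hfin := ae_of_exp' (P := fun x : ℝ => max 1 |c| < x →
    UPt (fun p => ⌊A x * (x ^ p - c ^ p)⌋₊) (Real.exp Real.eulerMascheroniConstant / Real.log x)) (by
    filter_upwards [hlaw] with t ht hx
    have h1 : c0 < t := by
      rw [hc0d, Real.log_lt_iff_lt_exp hmax0]
      exact hx
    rw [Real.log_exp]
    exact ht h1)
  filter_upwards [hfin] with x hx h1
  exact hx (by linarith) h1

/-- the statements for hyperbolic curve families -/
theorem upt_hyp {s : ℝ} (hs : |s| ≤ 1) {H H' H'' : ℝ → ℝ} (hHm : Measurable H)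
    (hH : ∀ t, 0 < t → HasDerivAt H (H' t) t)
    (hH' : ∀ t, 0 < t → HasDerivAt H' (H'' t) t) (hH'' : ContinuousOn H'' (Set.Ioi 0))
    {val : ℕ → ℝ → ℝ}
    (hval : ∀ t, 0 < t → ∀ᶠ p : ℕ in atTop, p.Prime → 0 < val p (2 * Real.sinh t) ∧
      Real.log (val p (2 * Real.sinh t)) =
        p * t + Real.log (1 + s * Real.exp (-(p * (2 * t - 0)))) + H t) :
    ∀ᵐ x : ℝ, 0 < x → UPt (fun p => ⌊val p x⌋₊)
      (Real.exp Real.eulerMascheroniConstant / Real.log ((x + Real.sqrt (x ^ 2 + 4)) / 2)) := by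
  refine ae_of_sinh (Q := fun x : ℝ => 0 < x → UPt (fun p => ⌊val p x⌋₊)
      (Real.exp Real.eulerMascheroniConstant / Real.log ((x + Real.sqrt (x ^ 2 + 4)) / 2))) ?_
  have hfam := fam_cur (m1 := 2) (m0 := 0) (s := s) (c0 := 0) two_pos hs (by norm_num) hH hH' hH''
  have hlaw := upt_val le_rfl (fun p => measurable_yy 2 0 s hHm p) hfam
    (val := fun p t => val p (2 * Real.sinh t)) hval
  filter_upwards [hlaw] with t ht hx
  have h1 : 0 < t := Real.sinh_pos_iff.1 (by linarith)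
  rw [root_sinh, Real.log_exp]
  exact ht h1

/-- **The statements for `A x * U_p(x, -1)`, almost every real `x > 0`.** -/
theorem upt_U_curve {A : ℝ → ℝ} (hA : ContDiffOn ℝ 2 A (Set.Ioi 0)) (hApos : ∀ x, 0 < x → 0 < A x) :
    ∀ᵐ x : ℝ, 0 < x →
    UPt (fun p => ⌊A x * lU x p⌋₊)
      (Real.exp Real.eulerMascheroniConstant / Real.log ((x + Real.sqrt (x ^ 2 + 4)) / 2)) := by
  have hne : ∀ t : ℝ, 2 * Real.cosh t ≠ 0 := fun t => by have := Real.cosh_pos t; positivity
  obtain ⟨H, H', H'', hHm, hHe, hH1, hH2, hH3⟩ := amp (c0 := 0) hA hApos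
    (g := fun t => 2 * Real.sinh t) (g' := fun t => 2 * Real.cosh t) (g'' := fun t => 2 * Real.sinh t)
    (by fun_prop) (fun t => (Real.hasDerivAt_sinh t).const_mul 2)
    (fun t => (Real.hasDerivAt_cosh t).const_mul 2) (by fun_prop) (fun t ht => sinh_pos' ht)
  refine upt_hyp (s := 1) (by simp) (H := fun t => H t - Real.log (2 * Real.cosh t))
    (H' := fun t => H' t - (2 * Real.sinh t / (2 * Real.cosh t)))
    (H'' := fun t => H'' t - ((2 * Real.cosh t * (2 * Real.cosh t) - 2 * Real.sinh t * (2 * Real.sinh t)) /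
      (2 * Real.cosh t) ^ 2)) (by fun_prop)
    (fun t ht => (hH1 t ht).sub (((Real.hasDerivAt_cosh t).const_mul 2).log (hne t)))
    (fun t ht => (hH2 t ht).sub (((Real.hasDerivAt_sinh t).const_mul 2).div
      ((Real.hasDerivAt_cosh t).const_mul 2) (hne t)))
    (hH3.sub (ContinuousOn.div (by fun_prop) (by fun_prop)
      fun t _ => pow_ne_zero 2 (hne t))) (val := fun p x => A x * lU x p) ?_
  intro t ht
  filter_upwards [eventually_ge_atTop 3] with p hp hpp
  have hodd : Odd p := hpp.odd_of_ne_two (by omega)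
  have hcl := lU_closed t p
  rw [hyp_odd t hodd, sub_neg_eq_add, ← Real.exp_nat_mul] at hcl
  have hc : 0 < 2 * Real.cosh t := by have := Real.cosh_pos t; positivity
  have e1 : lU (2 * Real.sinh t) p = (Real.exp (p * t) + Real.exp (-(p * t))) / (2 * Real.cosh t) := by
    rw [← hcl]; field_simp
  have h2 : 0 < Real.exp (p * t) + Real.exp (-(p * t)) := by positivity
  have e2 : Real.exp (p * t) + Real.exp (-(p * t)) =
      Real.exp (p * t) * (1 + 1 * Real.exp (-(p * (2 * t - 0)))) := by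
    rw [one_mul, mul_add, mul_one, ← Real.exp_add]
    congr 2
    ring
  have hAp := hApos _ (sinh_pos' ht)
  have h3 : 0 < lU (2 * Real.sinh t) p := by rw [e1]; positivity
  refine ⟨mul_pos hAp h3, ?_⟩
  rw [Real.log_mul hAp.ne' h3.ne', e1, Real.log_div h2.ne' hc.ne', e2,
    Real.log_mul (Real.exp_pos _).ne' (by positivity), Real.log_exp, hHe t ht]
  ring

/-- **The statements for `A x * V_p(x, -1)`, almost every real `x > 0`.** -/
theorem upt_V_curve {A : ℝ → ℝ} (hA : ContDiffOn ℝ 2 A (Set.Ioi 0)) (hApos : ∀ x, 0 < x → 0 < A x) :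
    ∀ᵐ x : ℝ, 0 < x →
    UPt (fun p => ⌊A x * lV x p⌋₊)
      (Real.exp Real.eulerMascheroniConstant / Real.log ((x + Real.sqrt (x ^ 2 + 4)) / 2)) := by
  obtain ⟨H, H', H'', hHm, hHe, hH1, hH2, hH3⟩ := amp (c0 := 0) hA hApos
    (g := fun t => 2 * Real.sinh t) (g' := fun t => 2 * Real.cosh t) (g'' := fun t => 2 * Real.sinh t)
    (by fun_prop) (fun t => (Real.hasDerivAt_sinh t).const_mul 2)
    (fun t => (Real.hasDerivAt_cosh t).const_mul 2) (by fun_prop) (fun t ht => sinh_pos' ht)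
  refine upt_hyp (s := -1) (by simp) hHm hH1 hH2 hH3 (val := fun p x => A x * lV x p) ?_
  intro t ht
  filter_upwards [eventually_ge_atTop 3] with p hp hpp
  have hodd : Odd p := hpp.odd_of_ne_two (by omega)
  have hp0 : (0 : ℝ) < p := by positivity
  have e1 : lV (2 * Real.sinh t) p = Real.exp (p * t) - Real.exp (-(p * t)) := by
    rw [lV_closed, hyp_odd t hodd, ← Real.exp_nat_mul]; ring
  have h2 : Real.exp (-(p * (2 * t - 0))) < 1 := by
    rw [Real.exp_lt_one_iff]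
    have : 0 < p * (2 * t - 0) := by
      rw [sub_zero]; positivity
    linarith
  have e2 : Real.exp (p * t) - Real.exp (-(p * t)) =
      Real.exp (p * t) * (1 + -1 * Real.exp (-(p * (2 * t - 0)))) := by
    rw [neg_one_mul, mul_add, mul_one, mul_neg, ← Real.exp_add, ← sub_eq_add_neg]
    congr 2
    ring
  have h3 : 0 < Real.exp (p * t) * (1 + -1 * Real.exp (-(p * (2 * t - 0)))) :=
    mul_pos (Real.exp_pos _) (by linarith)
  have hAp := hApos _ (sinh_pos' ht)
  rw [e1, e2]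
  refine ⟨mul_pos hAp h3, ?_⟩
  rw [Real.log_mul hAp.ne' h3.ne', Real.log_mul (Real.exp_pos _).ne' (by linarith), Real.log_exp, hHe t ht]
  ring


end

end Pool.Agent.Q43.UN
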