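import Pool.Agent.TH888.R.Sys

set_option autoImplicit false

/-!
# The law with error term for all sets of primes, with integrable constants

The proofs of `Pool.Agent.TH888.R` (`chain`, `blocks`, `Sys.core`, `Sys.law`) with the constants
replaced by integrable functions whose integrals are bounded uniformly in the set of primes.
-/

namespace Pool.Agent.Q43.UN

open Finset Filter Topology MeasureTheory
open scoped ENNReal
open Pool.Agent.TH888.R
open Pool.Agent.W66S (moment_rows mid_weights)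

/-- the sum of the inverse squares -/
noncomputable def S0 : ℝ := ∑' R : ℕ, 1 / ((R : ℝ) + 1) ^ 2

lemma summ_S0 : Summable (fun R : ℕ => 1 / ((R : ℝ) + 1) ^ 2) := by
  have h2 : Summable (fun n : ℕ => 1 / (n : ℝ) ^ 2) := Real.summable_one_div_nat_pow.2 (by norm_num)
  have h3 := (summable_nat_add_iff (f := fun n : ℕ => 1 / (n : ℝ) ^ 2) 1).mpr h2
  refine h3.congr fun n => ?_
  push_cast
  rfl

lemma S0_nonneg : 0 ≤ S0 := tsum_nonneg fun _ => by positivity

section

variable {α : Type*} [MeasurableSpace α] {μ : Measure α} [IsFiniteMeasure μ]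

/-- nonnegative functions with summable means are bounded by an integrable function -/
lemma int_bdd {Z : ℕ → α → ℝ} (h0 : ∀ k x, 0 ≤ Z k x) (hi : ∀ k, Integrable (Z k) μ) {g : ℕ → ℝ}
    (hg : ∀ k, ∫ x, Z k x ∂μ ≤ g k) (hs : Summable g) :
    ∃ T : α → ℝ≥0∞, AEMeasurable T μ ∧ ∫⁻ x, T x ∂μ ≤ ENNReal.ofReal (∑' k, g k) ∧
      ∀ x, T x ≠ ⊤ → ∀ k, Z k x ≤ (T x).toReal := by
  have hg0 : ∀ k, 0 ≤ g k := fun k => (integral_nonneg (h0 k)).trans (hg k)
  refine ⟨fun x => ∑' k, ENNReal.ofReal (Z k x),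
    AEMeasurable.ennreal_tsum fun k => (hi k).aestronglyMeasurable.aemeasurable.ennreal_ofReal, ?_,
    fun x hx k => ?_⟩
  · rw [lintegral_tsum fun k => (hi k).aestronglyMeasurable.aemeasurable.ennreal_ofReal]
    have h2 : ∀ k, ∫⁻ x, ENNReal.ofReal (Z k x) ∂μ = ENNReal.ofReal (∫ x, Z k x ∂μ) := fun k =>
      (ofReal_integral_eq_lintegral_ofReal (hi k) (Eventually.of_forall (h0 k))).symm
    simp only [h2]
    rw [ENNReal.ofReal_tsum_of_nonneg hg0 hs]
    exact ENNReal.tsum_le_tsum fun k => ENNReal.ofReal_le_ofReal (hg k)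
  · have h4 : ENNReal.ofReal (Z k x) ≤ ∑' k, ENNReal.ofReal (Z k x) := ENNReal.le_tsum k
    calc Z k x = (ENNReal.ofReal (Z k x)).toReal := (ENNReal.toReal_ofReal (h0 k x)).symm
      _ ≤ _ := ENNReal.toReal_mono hx h4

/-- **Chaining** with an integrable constant -/
theorem chainI {C : ℝ} (hC0 : 0 ≤ C) {Y : ℕ → α → ℝ}
    (hi : ∀ a b : ℕ, a ≤ b → Integrable (fun x => (∑ j ∈ Ico a b, Y j x) ^ 2) μ)
    (hC : ∀ a b : ℕ, a ≤ b → ∫ x, (∑ j ∈ Ico a b, Y j x) ^ 2 ∂μ ≤ C * ((b : ℝ) - a)) :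
    ∃ Z : α → ℝ≥0∞, AEMeasurable Z μ ∧ ∫⁻ x, Z x ∂μ ≤ ENNReal.ofReal (C * S0) ∧
      ∀ x, Z x ≠ ⊤ → ∀ J : ℕ, |∑ j ∈ range J, Y j x| ≤
      Real.sqrt (32 * (Z x).toReal) * (Real.sqrt ((J : ℝ) + 1) * (1 + Real.log ((J : ℝ) + 1)) ^ 2) := by
  obtain ⟨Z, hZm, hZi, hZb⟩ := int_bdd (μ := μ) (Z := fun R x => En R (fun j => Y j x) * (1 / (2 ^ R * ((R : ℝ) + 1) ^ 3)))
    (g := fun R : ℕ => C * (1 / ((R : ℝ) + 1) ^ 2))
    (fun R x => mul_nonneg (En_nonneg _ _) (by positivity))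
    (fun R => ((int_En R C Y hi hC).1).mul_const _)
    (fun R => by
      rw [integral_mul_const]
      calc (∫ x, En R (fun j => Y j x) ∂μ) * (1 / (2 ^ R * ((R : ℝ) + 1) ^ 3)) ≤
          C * (((R : ℝ) + 1) * 2 ^ R) * (1 / (2 ^ R * ((R : ℝ) + 1) ^ 3)) :=
            mul_le_mul_of_nonneg_right (int_En R C Y hi hC).2 (by positivity)
        _ = _ := by
            field_simp)
    (summ_S0.mul_left C)
  refine ⟨Z, hZm, by rw [tsum_mul_left] at hZi; exact hZi, fun x hx J => ?_⟩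
  obtain ⟨B, hBdef⟩ : ∃ B : ℝ, B = (Z x).toReal := ⟨_, rfl⟩
  have hB0 : 0 ≤ B := by rw [hBdef]; exact ENNReal.toReal_nonneg
  have hB : ∀ k, En k (fun j => Y j x) * (1 / (2 ^ k * ((k : ℝ) + 1) ^ 3)) ≤ B := fun k => by
    rw [hBdef]; exact hZb x hx k
  rw [← hBdef]
  set R := Nat.log 2 J + 1 with hR
  have hJR : J ≤ 2 ^ R := (Nat.lt_pow_succ_log_self (by norm_num) J).le
  have h1 := sq_le_En R (fun j => Y j x) J hJR
  have h2 := hB R
  have h2R : (0 : ℝ) < 2 ^ R := by positivity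
  have hR0 : (0 : ℝ) < (R : ℝ) + 1 := by positivity
  have h3 : En R (fun j => Y j x) ≤ B * (2 ^ R * ((R : ℝ) + 1) ^ 3) := by
    have h4 : 0 < (2 : ℝ) ^ R * ((R : ℝ) + 1) ^ 3 := by positivity
    rwa [mul_one_div, div_le_iff₀ h4] at h2
  have hJ1 : (1 : ℝ) ≤ (J : ℝ) + 1 := by have := Nat.cast_nonneg (α := ℝ) J; linarith
  have hlogJ : 0 ≤ Real.log ((J : ℝ) + 1) := Real.log_nonneg hJ1
  have h5 : (2 : ℝ) ^ R ≤ 2 * ((J : ℝ) + 1) := by
    rcases Nat.eq_zero_or_pos J with hJ | hJ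
    · rw [hR, hJ]; norm_num
    · have h6 : 2 ^ Nat.log 2 J ≤ J := Nat.pow_log_le_self 2 hJ.ne'
      have h7 : ((2 ^ Nat.log 2 J : ℕ) : ℝ) ≤ J := by exact_mod_cast h6
      rw [hR, pow_succ]
      push_cast at h7
      linarith
  have h6 : (R : ℝ) + 1 ≤ 2 * (1 + Real.log ((J : ℝ) + 1)) := by
    have h7 : Real.log (2 ^ Nat.log 2 J) ≤ Real.log ((J : ℝ) + 1) := by
      refine Real.log_le_log (by positivity) ?_
      rcases Nat.eq_zero_or_pos J with hJ | hJ
      · rw [hJ]; norm_num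
      · have h6 : 2 ^ Nat.log 2 J ≤ J := Nat.pow_log_le_self 2 hJ.ne'
        have h7 : ((2 ^ Nat.log 2 J : ℕ) : ℝ) ≤ J := by exact_mod_cast h6
        push_cast at h7
        linarith
    rw [Real.log_pow] at h7
    have h8 := Real.log_two_gt_d9
    have h9 : (0 : ℝ) ≤ Nat.log 2 J := Nat.cast_nonneg _
    rw [hR]
    push_cast
    nlinarith
  have h7 : (∑ j ∈ range J, Y j x) ^ 2 ≤ (Real.sqrt (32 * B) *
      (Real.sqrt ((J : ℝ) + 1) * (1 + Real.log ((J : ℝ) + 1)) ^ 2)) ^ 2 := by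
    rw [mul_pow, mul_pow, Real.sq_sqrt (by positivity), Real.sq_sqrt (by linarith), ← pow_mul]
    set L := 1 + Real.log ((J : ℝ) + 1) with hL
    have hL1 : 1 ≤ L := by linarith
    calc (∑ j ∈ range J, Y j x) ^ 2 ≤ ((R : ℝ) + 1) * (B * (2 ^ R * ((R : ℝ) + 1) ^ 3)) :=
          h1.trans (mul_le_mul_of_nonneg_left h3 hR0.le)
      _ = B * (2 ^ R * ((R : ℝ) + 1) ^ 4) := by ring
      _ ≤ B * ((2 * ((J : ℝ) + 1)) * (2 * L) ^ 4) := by gcongr
      _ = _ := by ring
  exact abs_le_of_sq_le_sq h7 (by positivity)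

/-- **The abstract law with error term** and an integrable constant -/
theorem blocksI {f m : ℕ → α → ℝ} {φ : ℕ → ℝ} {B0 K C : ℝ} (hφ0 : ∀ q, 0 ≤ φ q)
    (hφB : ∀ q, φ q ≤ B0) (hdiv : Tendsto (fun n => ∑ q ∈ range n, φ q) atTop atTop)
    (hK : 0 ≤ K) (hC : 0 ≤ C)
    (hfm : ∀ q, Measurable (f q)) (hmm : ∀ q, Measurable (m q))
    (hf0 : ∀ q x, 0 ≤ f q x) (hm0 : ∀ q x, 0 ≤ m q x) (hb : ∀ q x, |f q x - m q x| ≤ 1)
    (hmK : ∀ᵐ x ∂μ, ∀ q, m q x ≤ K * φ q)
    (hvar : ∀ a b : ℕ, a ≤ b → ∫ x, (∑ q ∈ Ico a b, (f q x - m q x)) ^ 2 ∂μ ≤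
      C * ∑ q ∈ Ico a b, φ q) :
    ∃ Z : α → ℝ≥0∞, AEMeasurable Z μ ∧ ∫⁻ x, Z x ∂μ ≤ ENNReal.ofReal (C * (1 + B0) * S0) ∧
      ∀ᵐ x ∂μ, Z x ≠ ⊤ → ∀ n : ℕ, |∑ q ∈ range n, (f q x - m q x)| ≤
      (8 * Real.sqrt (32 * (Z x).toReal) + K * (1 + B0)) * gr (∑ q ∈ range n, φ q) := by
  classical
  set Φ : ℕ → ℝ := fun n => ∑ q ∈ range n, φ q with hΦ
  have hB0 : 0 ≤ B0 := (hφ0 0).trans (hφB 0)
  have hΦmono : Monotone Φ := by
    intro a b hab
    exact Finset.sum_le_sum_of_subset_of_nonneg (Finset.range_mono hab) fun _ _ _ => hφ0 _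
  have hΦ0 : Φ 0 = 0 := by simp [hΦ]
  have hΦnn : ∀ n, 0 ≤ Φ n := fun n => Finset.sum_nonneg fun _ _ => hφ0 _
  have hex : ∀ j : ℕ, ∃ n, (j : ℝ) ≤ Φ n := fun j => (hdiv.eventually_ge_atTop (j : ℝ)).exists
  set N : ℕ → ℕ := fun j => Nat.find (hex j) with hN
  have hN1 : ∀ j : ℕ, (j : ℝ) ≤ Φ (N j) := fun j => Nat.find_spec (hex j)
  have hN2 : ∀ j : ℕ, Φ (N j) ≤ j + B0 := by
    intro j
    rcases Nat.eq_zero_or_pos (N j) with h | h
    · rw [h, hΦ0]; positivity
    · obtain ⟨k, hk⟩ : ∃ k, N j = k + 1 := ⟨N j - 1, by omega⟩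
      have h1 : ¬ (j : ℝ) ≤ Φ k := Nat.find_min (hex j) (by
        have : N j = Nat.find (hex j) := rfl
        omega)
      rw [hk]
      have h2 : Φ (k + 1) = Φ k + φ k := by simp only [hΦ]; rw [Finset.sum_range_succ]
      rw [h2]
      linarith [hφB k]
  have hNle : ∀ j n : ℕ, (j : ℝ) ≤ Φ n → N j ≤ n := fun j n h => Nat.find_min' (hex j) h
  have hNmono : Monotone N := by
    refine monotone_nat_of_le_succ fun j => hNle _ _ ?_
    have := hN1 (j + 1)
    push_cast at this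
    linarith
  have hN0 : N 0 = 0 := by
    have := hNle 0 0 (by rw [hΦ0]; simp)
    omega
  set X : ℕ → α → ℝ := fun q x => f q x - m q x with hX
  have hXm : ∀ q, Measurable (X q) := fun q => (hfm q).sub (hmm q)
  set Y : ℕ → α → ℝ := fun j x => ∑ q ∈ Ico (N j) (N (j + 1)), X q x with hY
  have hYsum : ∀ a b : ℕ, a ≤ b → ∀ x, ∑ j ∈ Ico a b, Y j x = ∑ q ∈ Ico (N a) (N b), X q x := by
    intro a b hab x
    induction b, hab using Nat.le_induction with
    | base => simp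
    | succ b hab ih =>
      rw [Finset.sum_Ico_succ_top hab, ih]
      exact Finset.sum_Ico_consecutive _ (hNmono hab) (hNmono (Nat.le_succ b))
  have hint : ∀ a b : ℕ, Integrable (fun x => (∑ q ∈ Ico a b, X q x) ^ 2) μ := by
    intro a b
    refine Integrable.of_bound ((Finset.measurable_fun_sum _ fun q _ => hXm q).pow_const
      2).aestronglyMeasurable (((b - a : ℕ) : ℝ) ^ 2) (Eventually.of_forall fun x => ?_)
    rw [Real.norm_eq_abs, abs_pow]
    refine pow_le_pow_left₀ (abs_nonneg _) ?_ 2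
    refine (Finset.abs_sum_le_sum_abs _ _).trans ?_
    calc ∑ q ∈ Ico a b, |X q x| ≤ ∑ q ∈ Ico a b, (1 : ℝ) := Finset.sum_le_sum fun q _ => hb q x
      _ = _ := by rw [Finset.sum_const, Nat.card_Ico, nsmul_eq_mul, mul_one]
  obtain ⟨Z, hZm, hZi, hZb⟩ := chainI (μ := μ) (C := C * (1 + B0)) (by positivity) (Y := Y)
    (fun a b hab => by
      simp only [hYsum a b hab]
      exact hint _ _)
    (fun a b hab => by
      simp only [hYsum a b hab]
      rcases hab.eq_or_lt with h | h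
      · subst h; simp
      · refine (hvar _ _ (hNmono hab)).trans ?_
        have h1 : ∑ q ∈ Ico (N a) (N b), φ q = Φ (N b) - Φ (N a) := by
          rw [Finset.sum_Ico_eq_sub _ (hNmono hab)]
        rw [h1, mul_assoc]
        refine mul_le_mul_of_nonneg_left ?_ hC
        have h2 := hN2 b
        have h3 := hN1 a
        have h4 : (a : ℝ) + 1 ≤ b := by exact_mod_cast h
        nlinarith)
  refine ⟨Z, hZm, hZi, ?_⟩
  filter_upwards [hmK] with x hmx hxt n
  have hBJ := hZb x hxt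
  obtain ⟨B, hBdef⟩ : ∃ B : ℝ, B = Real.sqrt (32 * (Z x).toReal) := ⟨_, rfl⟩
  rw [← hBdef] at hBJ ⊢
  have hB : 0 ≤ B := by rw [hBdef]; exact Real.sqrt_nonneg _
  set j := ⌊Φ n⌋₊ with hj
  have hj1 : (j : ℝ) ≤ Φ n := Nat.floor_le (hΦnn n)
  have hj2 : Φ n < j + 1 := Nat.lt_floor_add_one _
  have h1 : N j ≤ n := hNle j n hj1
  have h2 : n ≤ N (j + 1) := by
    by_contra h
    have h3 := hΦmono (not_le.1 h).le
    have h4 := hN1 (j + 1)
    push_cast at h4
    linarith
  set F : ℕ → ℝ := fun n => ∑ q ∈ range n, f q x with hF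
  set Mm : ℕ → ℝ := fun n => ∑ q ∈ range n, m q x with hMm
  have hFmono : Monotone F := fun a b hab =>
    Finset.sum_le_sum_of_subset_of_nonneg (Finset.range_mono hab) fun _ _ _ => hf0 _ _
  have hMmono : Monotone Mm := fun a b hab =>
    Finset.sum_le_sum_of_subset_of_nonneg (Finset.range_mono hab) fun _ _ _ => hm0 _ _
  have hSum : ∀ n, ∑ q ∈ range n, (f q x - m q x) = F n - Mm n := fun n => Finset.sum_sub_distrib _ _
  have hSJ : ∀ J, ∑ i ∈ range J, Y i x = F (N J) - Mm (N J) := by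
    intro J
    rw [← hSum, Finset.range_eq_Ico, Finset.range_eq_Ico, hYsum 0 J (Nat.zero_le J), hN0]
  have hMdiff : Mm (N (j + 1)) - Mm (N j) ≤ K * (1 + B0) := by
    have e1 : Mm (N (j + 1)) - Mm (N j) = ∑ q ∈ Ico (N j) (N (j + 1)), m q x := by
      rw [Finset.sum_Ico_eq_sub _ (hNmono (Nat.le_succ j))]
    have e2 : ∑ q ∈ Ico (N j) (N (j + 1)), φ q = Φ (N (j + 1)) - Φ (N j) := by
      rw [Finset.sum_Ico_eq_sub _ (hNmono (Nat.le_succ j))]
    rw [e1]
    calc ∑ q ∈ Ico (N j) (N (j + 1)), m q x ≤ ∑ q ∈ Ico (N j) (N (j + 1)), K * φ q :=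
          Finset.sum_le_sum fun q _ => hmx q
      _ = K * (Φ (N (j + 1)) - Φ (N j)) := by rw [← Finset.mul_sum, e2]
      _ ≤ _ := by
          refine mul_le_mul_of_nonneg_left ?_ hK
          have h3 := hN2 (j + 1)
          have h4 := hN1 j
          push_cast at h3
          linarith
  have hG : ∀ J : ℕ, (J : ℝ) ≤ Φ n + 1 → Real.sqrt ((J : ℝ) + 1) * (1 + Real.log ((J : ℝ) + 1)) ^ 2 ≤
      8 * gr (Φ n) := by
    intro J hJ
    have h3 := gr_le (x := Φ n) (y := J) (c := 2) (hΦnn n) (by norm_num) (Nat.cast_nonneg J)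
      (by linarith [hΦnn n])
    unfold gr at h3 ⊢
    rw [add_comm (J : ℝ) 1]
    norm_num at h3 ⊢
    exact h3
  have hG1 := one_le_gr (hΦnn n)
  have ha := abs_le.1 ((hBJ j).trans (mul_le_mul_of_nonneg_left (hG j (by linarith)) hB))
  have hb' := abs_le.1 ((hBJ (j + 1)).trans (mul_le_mul_of_nonneg_left (hG (j + 1) (by
    push_cast; linarith)) hB))
  rw [hSJ] at ha hb'
  rw [hSum]
  have hc1 := hFmono h1
  have hc2 := hFmono h2
  have hc3 := hMmono h1
  have hc4 := hMmono h2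
  have hKB : K * (1 + B0) ≤ K * (1 + B0) * gr (Φ n) := by
    have : 0 ≤ K * (1 + B0) := by positivity
    nlinarith
  rw [abs_le]
  constructor <;> linarith [ha.1, ha.2, hb'.1, hb'.2]

end

section

variable {Ω : Type*} [MeasurableSpace Ω] {μ : Measure Ω} [IsFiniteMeasure μ] {f m : ℕ → Ω → ℝ} {c : Ω → ℝ}

open Classical in
/-- the basic fluctuation bound with an integrable constant -/
lemma coreI (h : Sys μ f m c) {κ C : ℝ} {P : ℕ} (hC : 0 < C)
    (hdiag : ∀ q ≥ P, q.Prime → ∫ x, (f q x - m q x) ^ 2 ∂μ ≤ C * wt q)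
    (hrow : ∀ q ≥ P, q.Prime → ∀ T : Finset ℕ, (∀ p ∈ T, p.Prime ∧ P ≤ p ∧ p < q) →
      ∑ p ∈ T, |∫ x, (f p x - m p x) * (f q x - m q x) ∂μ| ≤
        C * (wt q * (1 + ∑ p ∈ T.filter (fun p : ℕ => κ * q / Real.log q < (p : ℝ)), wt p)))
    {Km : ℝ} (hKm : 0 ≤ Km) (hmK : ∀ᵐ x ∂μ, ∀ q ≥ P, q.Prime → m q x ≤ Km * wt q)
    (S : Set ℕ) (lam : ℕ → ℝ) (hl1 : ∀ q, 1 ≤ lam q) {B0 : ℝ} (hB0 : 0 ≤ B0)
    (hB : ∀ q, q.Prime → wt q * lam q ≤ B0)
    (hlam : ∀ q ≥ P, q.Prime → q ∈ S → ∀ T : Finset ℕ,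
      (∀ p ∈ T, p.Prime ∧ P ≤ p ∧ p < q ∧ p ∈ S ∧ κ * q / Real.log q < (p : ℝ)) →
      ∑ p ∈ T, wt p ≤ lam q)
    (hdiv : Tendsto (fun n => ∑ q ∈ range n, if q ∈ S ∧ q.Prime ∧ P ≤ q then wt q * lam q else 0)
      atTop atTop) :
    ∃ Z : Ω → ℝ≥0∞, AEMeasurable Z μ ∧ ∫⁻ x, Z x ∂μ ≤ ENNReal.ofReal (5 * C * (1 + B0) * S0) ∧
    ∀ᵐ x ∂μ, Z x ≠ ⊤ → ∀ n : ℕ,
      |∑ q ∈ range n, (if q ∈ S ∧ q.Prime ∧ P ≤ q then f q x - m q x else 0)| ≤
      (8 * Real.sqrt (32 * (Z x).toReal) + Km * (1 + B0)) *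
        gr (∑ q ∈ range n, if q ∈ S ∧ q.Prime ∧ P ≤ q then wt q * lam q else 0) := by
  set cd : ℕ → Prop := fun q => q ∈ S ∧ q.Prime ∧ P ≤ q with hcd
  have hl0 : ∀ q, 0 ≤ lam q := fun q => by linarith [hl1 q]
  obtain ⟨Z, hZm, hZi, key⟩ := blocksI (μ := μ) (f := fun q x => if cd q then f q x else 0)
    (m := fun q x => if cd q then m q x else 0) (φ := fun q => if cd q then wt q * lam q else 0)
    (B0 := B0) (K := Km) (C := 5 * C)
    (fun q => by
      split_ifs
      · exact mul_nonneg (wt_nonneg q) (hl0 q)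
      · exact le_rfl)
    (fun q => by
      split_ifs with hq
      · exact hB q hq.2.1
      · exact hB0)
    hdiv hKm (by positivity)
    (fun q => by
      by_cases hq : cd q
      · simp only [if_pos hq]; exact h.fm q
      · simp only [if_neg hq]; exact measurable_const)
    (fun q => by
      by_cases hq : cd q
      · simp only [if_pos hq]; exact h.mm q
      · simp only [if_neg hq]; exact measurable_const)
    (fun q x => by
      split_ifs
      · exact h.f0 q x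
      · exact le_rfl)
    (fun q x => by
      split_ifs
      · exact h.m0 q x
      · exact le_rfl)
    (fun q x => by
      split_ifs
      · exact h.hb q x
      · norm_num)
    (by
      filter_upwards [hmK] with x hx q
      split_ifs with hq
      · refine (hx q hq.2.2 hq.2.1).trans ?_
        refine mul_le_mul_of_nonneg_left ?_ hKm
        nlinarith [wt_nonneg q, hl1 q]
      · rw [mul_zero])
    (by
      intro a b hab
      set T := (Ico a b).filter cd with hT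
      have e1 : ∀ x, ∑ q ∈ Ico a b, ((if cd q then f q x else 0) - if cd q then m q x else 0) =
          ∑ q ∈ T, (f q x - m q x) := by
        intro x
        rw [hT, Finset.sum_filter]
        refine Finset.sum_congr rfl fun q _ => ?_
        split_ifs
        · rfl
        · norm_num
      have e2 : ∑ q ∈ Ico a b, (if cd q then wt q * lam q else 0) = ∑ q ∈ T, wt q * lam q := by
        rw [hT, Finset.sum_filter]
      simp only [e1, e2]
      have hGm : ∀ q, Measurable (fun x => f q x - m q x) := fun q => (h.fm q).sub (h.mm q)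
      refine (moment_rows (μ := μ) (G := fun q x => f q x - m q x) hGm h.hb T).trans ?_
      rw [Finset.mul_sum]
      refine Finset.sum_le_sum fun q hq => ?_
      rw [hT, mem_filter] at hq
      have hqc := hq.2
      have h1 := hdiag q hqc.2.2 hqc.2.1
      have h2 := hrow q hqc.2.2 hqc.2.1 (T.filter (fun p => p < q)) (by
        intro p hp
        rw [mem_filter, hT, mem_filter] at hp
        exact ⟨hp.1.2.2.1, hp.1.2.2.2, hp.2⟩)
      have h3 := hlam q hqc.2.2 hqc.2.1 hqc.1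
        ((T.filter (fun p => p < q)).filter (fun p : ℕ => κ * q / Real.log q < (p : ℝ))) (by
          intro p hp
          rw [mem_filter, mem_filter, hT, mem_filter] at hp
          exact ⟨hp.1.1.2.2.1, hp.1.1.2.2.2, hp.1.2, hp.1.1.2.1, hp.2⟩)
      have hw := wt_nonneg q
      have h4 : C * (wt q * (1 + ∑ p ∈ (T.filter (fun p => p < q)).filter
          (fun p : ℕ => κ * q / Real.log q < (p : ℝ)), wt p)) ≤ C * (wt q * (1 + lam q)) := by
        gcongr
      have h5 := hl1 q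
      have h6 : C * wt q ≤ C * (wt q * lam q) := by
        refine mul_le_mul_of_nonneg_left ?_ hC.le
        nlinarith
      nlinarith)
  refine ⟨Z, hZm, hZi, ?_⟩
  filter_upwards [key] with x hx hxt n
  have := hx hxt n
  refine le_trans (le_of_eq ?_) this
  congr 1
  refine Finset.sum_congr rfl fun q _ => ?_
  simp only [hcd]
  split_ifs
  · rfl
  · norm_num

open Classical in
/-- **The law with error term for all sets of primes**, with integrable constants -/
theorem lawI (h : Sys μ f m c) : ∃ D A : ℝ, 0 ≤ D ∧ 0 ≤ A ∧ ∃ P : ℕ, ∀ S : Set ℕ, Tendsto (VS S) atTop atTop →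
    ∃ Z : Ω → ℝ≥0∞, AEMeasurable Z μ ∧ ∫⁻ x, Z x ∂μ ≤ ENNReal.ofReal D ∧
    ∀ᵐ x ∂μ, Z x ≠ ⊤ → ∀ n : ℕ, 3 ≤ n → |FS f S n x - c x * VS S n| ≤
      (A * (Real.sqrt (Z x).toReal + 1) + P * (1 + |c x|)) * gr (VS S n * (1 + Real.log (Real.log n))) := by
  obtain ⟨κ, C, hκ, hC, P1, hP13, hdiag, hrow⟩ := h.row
  obtain ⟨Km, hKm, P2, hmean⟩ := h.mean
  obtain ⟨c0, c1, hc0, hcb⟩ := h.cb
  obtain ⟨C2, hC2, hmid⟩ := mid_weights hκ
  obtain ⟨P3, hP3⟩ := eventually_atTop.1 hmid
  obtain ⟨C3, hC3, hinv⟩ := inv_sum_le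
  set P := P1 + P2 + P3 with hP
  set lam : ℕ → ℝ := fun q => 1 + C2 * |1 + Real.log (Real.log q)| with hlamd
  have hl1 : ∀ q, 1 ≤ lam q := fun q => by
    have : 0 ≤ C2 * |1 + Real.log (Real.log q)| := by positivity
    simp only [hlamd]
    linarith
  have hwB : ∀ q : ℕ, q.Prime → wt q * lam q ≤ 1 + 6 * C2 := by
    intro q hq
    have hq2 : (2 : ℝ) ≤ q := by exact_mod_cast hq.two_le
    have hq0 : (0 : ℝ) < q := by linarith
    have hl2 : Real.log 2 ≤ Real.log q := Real.log_le_log (by norm_num) hq2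
    have h2 := Real.log_two_gt_d9
    set u := Real.log q with hu
    have hu0 : 0 < u := by linarith
    have h3 : |1 + Real.log u| ≤ 2 + u := by
      have h4 := Real.log_le_sub_one_of_pos hu0
      have h5 := Real.one_sub_inv_le_log_of_pos hu0
      have h6 : u⁻¹ ≤ 2 := by
        rw [inv_le_comm₀ hu0 (by norm_num)]
        linarith
      rw [abs_le]
      constructor <;> linarith
    have h7 : u ^ 2 ≤ 4 * q := by
      have h8 : u = 2 * Real.log (Real.sqrt q) := by
        rw [Real.log_sqrt hq0.le]; ring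
      have h9 := Real.log_le_sub_one_of_pos (Real.sqrt_pos.2 hq0)
      have h10 : u ≤ 2 * Real.sqrt q := by linarith
      calc u ^ 2 ≤ (2 * Real.sqrt q) ^ 2 := pow_le_pow_left₀ hu0.le h10 2
        _ = 4 * q := by rw [mul_pow, Real.sq_sqrt hq0.le]; norm_num
    have h11 : wt q ≤ 1 := wt_le_one q
    have h12 : wt q * u ≤ 4 := by
      unfold wt
      rw [← hu, div_mul_eq_mul_div, div_le_iff₀ hq0]
      nlinarith
    have hw := wt_nonneg q
    simp only [hlamd]
    rw [← hu]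
    calc wt q * (1 + C2 * |1 + Real.log u|) ≤ wt q * (1 + C2 * (2 + u)) := by gcongr
      _ = wt q + C2 * (2 * wt q + wt q * u) := by ring
      _ ≤ 1 + C2 * (2 * 1 + 4) := by gcongr
      _ = _ := by ring
  have hmK : ∀ᵐ x ∂μ, ∀ q ≥ P, q.Prime → m q x ≤ (|c1| + Km) * wt q := by
    filter_upwards [hmean, hcb] with x hx hc q hq hqp
    have h1 := (abs_le.1 (hx q (by omega) hqp)).2
    have hq3 : (3 : ℝ) ≤ q := by exact_mod_cast (by omega : 3 ≤ q)
    have h2 : 1 / (q : ℝ) ≤ wt q := by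
      unfold wt
      refine div_le_div_of_nonneg_right ?_ (by linarith)
      rw [Real.le_log_iff_exp_le (by linarith)]
      have := Real.exp_one_lt_d9
      linarith
    have h3 : c x ≤ |c1| := hc.2.trans (le_abs_self _)
    have hw := wt_nonneg q
    nlinarith [mul_le_mul_of_nonneg_left h2 hKm, mul_le_mul_of_nonneg_right h3 hw]
  refine ⟨5 * C * (1 + (1 + 6 * C2)) * S0, (8 * Real.sqrt 32 + (|c1| + Km) * (1 + (1 + 6 * C2))) * (1 + C2) ^ 3 + Km * C3,
    by have := S0_nonneg; positivity, by positivity, P, fun S hdiv => ?_⟩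
  obtain ⟨Z, hZm, hZi, key⟩ := coreI h (κ := κ) (C := C) (P := P) hC
    (fun q hq hqp => hdiag q (by omega) hqp)
    (fun q hq hqp T hT => hrow q (by omega) hqp T fun p hp => by
      obtain ⟨h1, h2, h3⟩ := hT p hp
      exact ⟨h1, by omega, h3⟩)
    (Km := |c1| + Km) (by positivity) hmK S lam hl1 (B0 := 1 + 6 * C2) (by positivity) hwB
    (fun q hq hqp _ T hT => by
      have h1 := hP3 q (by omega) T (fun p hp => by
        obtain ⟨h1, _, h3, _, h5⟩ := hT p hp
        exact ⟨h1, h3.le, h5⟩)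
      refine le_trans h1 ?_
      have h2 := le_abs_self (1 + Real.log (Real.log q))
      have h3 : C2 * (1 + Real.log (Real.log q)) ≤ C2 * |1 + Real.log (Real.log q)| := by gcongr
      simp only [hlamd]
      linarith)
    (div_tail hdiv P lam hl1)
  refine ⟨Z, hZm, hZi, ?_⟩
  filter_upwards [key, hmean, hcb] with x hx hmx hcx hxt n hn
  have hBn := hx hxt
  obtain ⟨B, hBdef⟩ : ∃ B : ℝ, B = 8 * Real.sqrt (32 * (Z x).toReal) + (|c1| + Km) * (1 + (1 + 6 * C2)) :=
    ⟨_, rfl⟩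
  rw [← hBdef] at hBn
  have hB : 0 ≤ B := by rw [hBdef]; positivity
  have hBle : B ≤ (8 * Real.sqrt 32 + (|c1| + Km) * (1 + (1 + 6 * C2))) * (Real.sqrt (Z x).toReal + 1) := by
    rw [hBdef, Real.sqrt_mul (by norm_num : (0 : ℝ) ≤ 32)]
    have h1 := Real.sqrt_nonneg (Z x).toReal
    have h2 := Real.sqrt_nonneg 32
    have h3 : 0 ≤ (|c1| + Km) * (1 + (1 + 6 * C2)) := by positivity
    nlinarith
  set V := VS S n with hV
  have hV0 : 0 ≤ V := VS_nonneg S n
  have hll : 0 ≤ Real.log (Real.log n) := loglog_nonneg hn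
  set v := V * (1 + Real.log (Real.log n)) with hv
  have hv0 : 0 ≤ v := by positivity
  have hVv : V ≤ v := by rw [hv]; nlinarith
  -- the decomposition
  set cd : ℕ → Prop := fun q => q ∈ S ∧ q.Prime ∧ P ≤ q with hcd
  have hdec : FS f S n x - c x * V =
      (∑ q ∈ range (n + 1), if q ∈ S ∧ q.Prime ∧ P ≤ q then f q x - m q x else 0) +
      (∑ q ∈ range (n + 1), if q ∈ S ∧ q.Prime ∧ P ≤ q then m q x - c x * wt q else 0) +
      (∑ q ∈ range (n + 1), if q ∈ S ∧ q.Prime ∧ q < P then f q x - c x * wt q else 0) := by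
    rw [hV]
    unfold FS VS
    rw [Finset.mul_sum, ← Finset.sum_sub_distrib, ← Finset.sum_add_distrib, ← Finset.sum_add_distrib]
    refine Finset.sum_congr rfl fun q _ => ?_
    by_cases h1 : q ∈ S ∧ q.Prime
    · by_cases h2 : P ≤ q
      · rw [if_pos h1, if_pos h1, if_pos ⟨h1.1, h1.2, h2⟩, if_pos ⟨h1.1, h1.2, h2⟩,
          if_neg (fun h => by omega)]
        ring
      · rw [if_pos h1, if_pos h1, if_neg (fun h => h2 h.2.2), if_neg (fun h => h2 h.2.2),
          if_pos ⟨h1.1, h1.2, by omega⟩]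
        ring
    · rw [if_neg h1, if_neg h1, if_neg (fun h => h1 ⟨h.1, h.2.1⟩), if_neg (fun h => h1 ⟨h.1, h.2.1⟩),
        if_neg (fun h => h1 ⟨h.1, h.2.1⟩)]
      ring
  have hA : |∑ q ∈ range (n + 1), if q ∈ S ∧ q.Prime ∧ P ≤ q then f q x - m q x else 0| ≤
      B * (1 + C2) ^ 3 * gr v := by
    refine (hBn (n + 1)).trans ?_
    rw [mul_assoc]
    refine mul_le_mul_of_nonneg_left ?_ hB
    have h1 : ∑ q ∈ range (n + 1), (if q ∈ S ∧ q.Prime ∧ P ≤ q then wt q * lam q else 0) ≤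
        (1 + C2) * v := by
      rw [hv, hV]
      unfold VS
      rw [Finset.sum_mul, Finset.mul_sum]
      refine Finset.sum_le_sum fun q hq => ?_
      rw [mem_range] at hq
      have hw := wt_nonneg q
      by_cases h2 : q ∈ S ∧ q.Prime ∧ P ≤ q
      · rw [if_pos h2, if_pos ⟨h2.1, h2.2.1⟩]
        have hq3 : 3 ≤ q := by have := h2.2.2; omega
        have h3 := loglog_nonneg hq3
        have h4 : Real.log (Real.log q) ≤ Real.log (Real.log n) := by
          have hq3' : (3 : ℝ) ≤ q := by exact_mod_cast hq3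
          have h5 : 0 < Real.log q := Real.log_pos (by linarith)
          refine Real.log_le_log h5 (Real.log_le_log (by linarith) ?_)
          exact_mod_cast (by omega : q ≤ n)
        simp only [hlamd]
        rw [abs_of_nonneg (by linarith)]
        have h6 : 1 + C2 * (1 + Real.log (Real.log q)) ≤ (1 + C2) * (1 + Real.log (Real.log n)) := by
          nlinarith
        calc wt q * (1 + C2 * (1 + Real.log (Real.log q))) ≤
              wt q * ((1 + C2) * (1 + Real.log (Real.log n))) := mul_le_mul_of_nonneg_left h6 hw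
          _ = _ := by ring
      · rw [if_neg h2]
        have : 0 ≤ (if q ∈ S ∧ q.Prime then wt q else 0) := by
          split_ifs
          · exact hw
          · exact le_rfl
        positivity
    have h2 : 0 ≤ ∑ q ∈ range (n + 1), (if q ∈ S ∧ q.Prime ∧ P ≤ q then wt q * lam q else 0) := by
      refine Finset.sum_nonneg fun q _ => ?_
      split_ifs
      · exact mul_nonneg (wt_nonneg q) (by linarith [hl1 q])
      · exact le_rfl
    exact gr_le hv0 (by linarith) h2 (by nlinarith)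
  have hBd : |∑ q ∈ range (n + 1), if q ∈ S ∧ q.Prime ∧ P ≤ q then m q x - c x * wt q else 0| ≤
      Km * C3 * gr v := by
    set T := (range (n + 1)).filter (fun q => q ∈ S ∧ q.Prime ∧ P ≤ q) with hT
    have h1 : ∑ q ∈ T, wt q ≤ V := by
      rw [hV]
      unfold VS
      rw [hT, Finset.sum_filter]
      refine Finset.sum_le_sum fun q _ => ?_
      by_cases h2 : q ∈ S ∧ q.Prime ∧ P ≤ q
      · rw [if_pos h2, if_pos ⟨h2.1, h2.2.1⟩]
      · rw [if_neg h2]
        split_ifs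
        · exact wt_nonneg q
        · exact le_rfl
    rw [← Finset.sum_filter]
    calc |∑ q ∈ T, (m q x - c x * wt q)| ≤ ∑ q ∈ T, |m q x - c x * wt q| :=
          Finset.abs_sum_le_sum_abs _ _
      _ ≤ ∑ q ∈ T, Km * (1 / (q : ℝ)) := by
          refine Finset.sum_le_sum fun q hq => ?_
          rw [hT, mem_filter] at hq
          have := hq.2.2.2
          exact hmx q (by omega) hq.2.2.1
      _ = Km * ∑ q ∈ T, 1 / (q : ℝ) := by rw [Finset.mul_sum]
      _ ≤ Km * (C3 * Real.sqrt (∑ q ∈ T, wt q)) := by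
          refine mul_le_mul_of_nonneg_left (hinv T fun q hq => ?_) hKm
          rw [hT, mem_filter] at hq
          exact hq.2.2.1
      _ ≤ Km * (C3 * gr v) := by
          have h3 : Real.sqrt (∑ q ∈ T, wt q) ≤ gr v :=
            (Real.sqrt_le_sqrt (h1.trans hVv)).trans (sqrt_le_gr hv0)
          gcongr
      _ = _ := by ring
  have hCd : |∑ q ∈ range (n + 1), if q ∈ S ∧ q.Prime ∧ q < P then f q x - c x * wt q else 0| ≤
      P * (1 + |c x|) * gr v := by
    have h1 : ∑ q ∈ range (n + 1), |if q ∈ S ∧ q.Prime ∧ q < P then f q x - c x * wt q else 0| ≤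
        ∑ q ∈ range (n + 1), if q < P then (1 + |c x|) else 0 := by
      refine Finset.sum_le_sum fun q _ => ?_
      split_ifs with h2 h3 h3
      · refine (abs_sub _ _).trans ?_
        rw [abs_of_nonneg (h.f0 q x), abs_mul, abs_of_nonneg (wt_nonneg q)]
        have := h.f1 q x
        have := wt_le_one q
        have := abs_nonneg (c x)
        nlinarith
      · exact absurd h2.2.2 h3
      · rw [abs_zero]; positivity
      · rw [abs_zero]
    have h2 : ∑ q ∈ range (n + 1), (if q < P then (1 + |c x|) else 0) ≤ P * (1 + |c x|) := by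
      rw [Finset.sum_ite, Finset.sum_const_zero, add_zero, Finset.sum_const, nsmul_eq_mul]
      have : ((range (n + 1)).filter (fun q => q < P)).card ≤ P := by
        calc _ ≤ (range P).card := Finset.card_le_card fun q hq => by
                rw [mem_filter] at hq
                exact mem_range.2 hq.2
          _ = P := Finset.card_range P
      refine mul_le_mul_of_nonneg_right ?_ (by positivity)
      exact_mod_cast this
    have h3 := one_le_gr hv0
    have h4 : (0 : ℝ) ≤ P * (1 + |c x|) := by positivity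
    calc _ ≤ _ := (Finset.abs_sum_le_sum_abs _ _).trans (h1.trans h2)
      _ ≤ _ := by nlinarith
  rw [hdec]
  have h1 := abs_add_le
    ((∑ q ∈ range (n + 1), if q ∈ S ∧ q.Prime ∧ P ≤ q then f q x - m q x else 0) +
      (∑ q ∈ range (n + 1), if q ∈ S ∧ q.Prime ∧ P ≤ q then m q x - c x * wt q else 0))
    (∑ q ∈ range (n + 1), if q ∈ S ∧ q.Prime ∧ q < P then f q x - c x * wt q else 0)
  have h2 := abs_add_le
    (∑ q ∈ range (n + 1), if q ∈ S ∧ q.Prime ∧ P ≤ q then f q x - m q x else 0)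
    (∑ q ∈ range (n + 1), if q ∈ S ∧ q.Prime ∧ P ≤ q then m q x - c x * wt q else 0)
  have hgr := one_le_gr hv0
  have hz := Real.sqrt_nonneg (Z x).toReal
  have hfin : B * (1 + C2) ^ 3 + Km * C3 ≤ ((8 * Real.sqrt 32 + (|c1| + Km) * (1 + (1 + 6 * C2))) * (1 + C2) ^ 3 +
      Km * C3) * (Real.sqrt (Z x).toReal + 1) := by
    have h3 : B * (1 + C2) ^ 3 ≤ ((8 * Real.sqrt 32 + (|c1| + Km) * (1 + (1 + 6 * C2))) *
      (Real.sqrt (Z x).toReal + 1)) * (1 + C2) ^ 3 := mul_le_mul_of_nonneg_right hBle (by positivity)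
    have h4 : Km * C3 ≤ Km * C3 * (Real.sqrt (Z x).toReal + 1) := by
      have : 0 ≤ Km * C3 := by positivity
      nlinarith
    calc _ ≤ _ := add_le_add h3 h4
      _ = _ := by ring
  calc _ ≤ B * (1 + C2) ^ 3 * gr v + Km * C3 * gr v + P * (1 + |c x|) * gr v := by linarith
    _ = (B * (1 + C2) ^ 3 + Km * C3 + P * (1 + |c x|)) * gr v := by ring
    _ ≤ _ := by
        refine mul_le_mul_of_nonneg_right ?_ (by linarith)
        linarith

end

end Pool.Agent.Q43.UN
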