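import Pool.Agent.TH888.R.Asy
import Pool.Agent.H387R2.U3
import Pool.Agent.H343R2.Count

set_option autoImplicit false

/-!
# Mertens' theorem in progressions, uniformly in the modulus
-/

namespace Pool.Agent.Q43.UN

open Finset Filter Topology
open Pool.Agent.TH888.R

/-- the residue class `a` modulo `q` -/
def Cl (q a : ℕ) : Set ℕ := {p | p ≡ a [MOD q]}

lemma wt_succ_le {m : ℕ} (hm : 3 ≤ m) : wt (m + 1) ≤ wt m := by
  unfold wt
  have h3 : Real.exp 1 ≤ (m : ℝ) := by
    have h1 := Real.exp_one_lt_d9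
    have h2 : (3 : ℝ) ≤ m := by exact_mod_cast hm
    linarith
  have := Real.log_div_self_antitoneOn (a := (m : ℝ)) (b := ((m + 1 : ℕ) : ℝ)) h3
    (by push_cast; show Real.exp 1 ≤ (m : ℝ) + 1; linarith) (by push_cast; linarith)
  exact this

lemma wt_diff {m : ℕ} (hm : 3 ≤ m) : |wt (m + 1) - wt m| ≤ Real.log m / (m * (m + 1)) := by
  have h0 := wt_succ_le hm
  have hm0 : (0 : ℝ) < m := by exact_mod_cast (by omega : 0 < m)
  rw [abs_sub_comm, abs_of_nonneg (by linarith)]
  unfold wt
  have h1 : Real.log m ≤ Real.log ((m + 1 : ℕ) : ℝ) := Real.log_le_log hm0 (by push_cast; linarith)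
  push_cast at h1 ⊢
  have h2 : Real.log m / ((m : ℝ) + 1) ≤ Real.log ((m : ℝ) + 1) / ((m : ℝ) + 1) := by gcongr
  calc Real.log m / (m : ℝ) - Real.log ((m : ℝ) + 1) / ((m : ℝ) + 1) ≤
        Real.log m / (m : ℝ) - Real.log m / ((m : ℝ) + 1) := by linarith
    _ = _ := by field_simp; ring

/-- summation by parts -/
lemma parts (e : ℕ → ℝ) {Y n : ℕ} (hn : Y ≤ n) :
    |∑ m ∈ Ioc Y n, wt m * e m - wt n * ∑ j ∈ Icc 1 n, e j + wt Y * ∑ j ∈ Icc 1 Y, e j| ≤
      ∑ m ∈ Ico Y n, |wt (m + 1) - wt m| * |∑ j ∈ Icc 1 m, e j| := by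
  induction n, hn using Nat.le_induction with
  | base => simp
  | succ n hn ih =>
    rw [Finset.sum_Ico_succ_top hn, ← Finset.insert_Ioc_right_eq_Ioc_add_one hn,
      Finset.sum_insert (by simp), ← Finset.insert_Icc_right_eq_Icc_add_one (by omega : 1 ≤ n + 1),
      Finset.sum_insert (by simp)]
    have e1 : wt (n + 1) * e (n + 1) + ∑ m ∈ Ioc Y n, wt m * e m -
        wt (n + 1) * (e (n + 1) + ∑ j ∈ Icc 1 n, e j) + wt Y * ∑ j ∈ Icc 1 Y, e j =
        (∑ m ∈ Ioc Y n, wt m * e m - wt n * ∑ j ∈ Icc 1 n, e j + wt Y * ∑ j ∈ Icc 1 Y, e j) +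
        -((wt (n + 1) - wt n) * ∑ j ∈ Icc 1 n, e j) := by ring
    rw [e1]
    refine (abs_add_le _ _).trans (add_le_add ih ?_)
    rw [abs_neg, abs_mul]

/-- the tail of the sum of the errors -/
lemma tail {Y n : ℕ} (hY : 16 ≤ Y) (hn : Y ≤ n) {E : ℕ → ℝ}
    (hE : ∀ m, Y ≤ m → |E m| ≤ m / Real.log m ^ 6) :
    ∑ m ∈ Ico Y n, |wt (m + 1) - wt m| * |E m| ≤ 1 := by
  have hlog : ∀ m : ℕ, 16 ≤ m → 2 < Real.log m := by
    intro m hm
    have h1 : (16 : ℝ) ≤ m := by exact_mod_cast hm
    have h2 : Real.log 16 ≤ Real.log m := Real.log_le_log (by norm_num) h1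
    have h3 : Real.log 16 = 4 * Real.log 2 := by
      rw [show (16 : ℝ) = 2 ^ 4 by norm_num, Real.log_pow]; norm_num
    have h4 := Real.log_two_gt_d9
    linarith
  have key : ∑ m ∈ Ico Y n, |wt (m + 1) - wt m| * |E m| ≤ 1 / Real.log Y - 1 / Real.log n := by
    induction n, hn using Nat.le_induction with
    | base => simp
    | succ n hn ih =>
      rw [Finset.sum_Ico_succ_top hn]
      have hn16 : 16 ≤ n := hY.trans hn
      have hl := hlog n hn16
      have hn0 : (0 : ℝ) < n := by exact_mod_cast (by omega : 0 < n)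
      have h1 := wt_diff (m := n) (by omega)
      have h2 := hE n hn
      have hl1 : Real.log n ≤ Real.log ((n + 1 : ℕ) : ℝ) := Real.log_le_log hn0 (by push_cast; linarith)
      have hl2 : Real.log ((n + 1 : ℕ) : ℝ) ≤ 2 * Real.log n := by
        rw [← Real.log_rpow hn0 2]
        refine Real.log_le_log (by positivity) ?_
        push_cast
        have h16 : (16 : ℝ) ≤ n := by exact_mod_cast hn16
        rw [show (n : ℝ) ^ (2 : ℝ) = (n : ℝ) ^ 2 by exact_mod_cast Real.rpow_natCast (n : ℝ) 2]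
        nlinarith
      have h3 : |wt (n + 1) - wt n| * |E n| ≤ 1 / (((n : ℝ) + 1) * Real.log n ^ 5) := by
        calc _ ≤ (Real.log n / (n * (n + 1))) * (n / Real.log n ^ 6) := by gcongr
          _ = _ := by
            field_simp
      have h4 : 1 / (((n : ℝ) + 1) * Real.log n ^ 5) ≤ 1 / Real.log n - 1 / Real.log ((n + 1 : ℕ) : ℝ) := by
        have hL0 : 0 < Real.log n := by linarith
        have hL1 : 0 < Real.log ((n + 1 : ℕ) : ℝ) := by linarith
        have h5 : 1 / Real.log n - 1 / Real.log ((n + 1 : ℕ) : ℝ) =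
            (Real.log ((n + 1 : ℕ) : ℝ) - Real.log n) / (Real.log n * Real.log ((n + 1 : ℕ) : ℝ)) := by
          field_simp
        have h6 : 1 / ((n : ℝ) + 1) ≤ Real.log ((n + 1 : ℕ) : ℝ) - Real.log n := by
          rw [← Real.log_div (by positivity) hn0.ne']
          have h7 := Real.one_sub_inv_le_log_of_pos (x := ((n + 1 : ℕ) : ℝ) / n) (by positivity)
          have h8 : 1 - (((n + 1 : ℕ) : ℝ) / n)⁻¹ = 1 / ((n : ℝ) + 1) := by
            push_cast
            field_simp
            ring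
          linarith
        rw [h5]
        calc 1 / (((n : ℝ) + 1) * Real.log n ^ 5) = (1 / ((n : ℝ) + 1)) / (Real.log n * Real.log n ^ 4) := by
              field_simp
          _ ≤ (Real.log ((n + 1 : ℕ) : ℝ) - Real.log n) / (Real.log n * Real.log ((n + 1 : ℕ) : ℝ)) := by
              have h9 : Real.log ((n + 1 : ℕ) : ℝ) ≤ Real.log n ^ 4 := by
                have h10 : 2 ≤ Real.log n ^ 3 := by
                  have : (2 : ℝ) ^ 3 ≤ Real.log n ^ 3 := pow_le_pow_left₀ (by norm_num) hl.le 3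
                  linarith
                calc _ ≤ 2 * Real.log n := hl2
                  _ ≤ Real.log n ^ 3 * Real.log n := by gcongr
                  _ = _ := by ring
              gcongr
      linarith
  have h1 := hlog Y hY
  have h2 := hlog n (hY.trans hn)
  have h3 : 1 / Real.log Y ≤ 1 := by rw [div_le_one (by linarith)]; linarith
  have h4 : 0 ≤ 1 / Real.log n := by positivity
  linarith

open Classical in
/-- the trivial bound for the weights of a residue class -/
lemma triv {q : ℕ} (hq : 1 ≤ q) (a Y : ℕ) (hY : 2 ≤ Y) :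
    VS (Cl q a) Y ≤ 1 + Real.log Y * (1 + Real.log Y) / q := by
  have hq0 : (0 : ℝ) < q := by exact_mod_cast hq
  have hlY : 0 ≤ Real.log Y := Real.log_natCast_nonneg Y
  set A := a % q with hA
  have hAq : A < q := Nat.mod_lt _ hq
  have h1 : VS (Cl q a) Y ≤ ∑ k ∈ range (Y + 1), if A + k * q ≤ Y then wt (A + k * q) else 0 := by
    unfold VS
    rw [← Finset.sum_filter, ← Finset.sum_filter]
    have hinj : Set.InjOn (fun k => A + k * q) (((range (Y + 1)).filter (fun k => A + k * q ≤ Y) : Finset ℕ) : Set ℕ) := by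
      intro x _ y _ h
      simp only at h
      exact Nat.eq_of_mul_eq_mul_right hq (by omega)
    rw [← Finset.sum_image (f := fun m => wt m) hinj]
    refine Finset.sum_le_sum_of_subset_of_nonneg ?_ fun _ _ _ => wt_nonneg _
    intro p hp
    rw [mem_filter, mem_range] at hp
    have hpa : p % q = A := hp.2.1
    rw [mem_image]
    refine ⟨p / q, ?_, ?_⟩
    · rw [mem_filter, mem_range]
      have h2 := Nat.mod_add_div p q
      have h3 : p / q ≤ p := Nat.div_le_self p q
      constructor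
      · omega
      · rw [← hpa, mul_comm]; omega
    · rw [← hpa]
      have h2 := Nat.mod_add_div p q
      rw [mul_comm]; exact h2
  refine h1.trans ?_
  rw [Finset.sum_range_succ']
  have h2 : ∑ k ∈ range Y, (if A + (k + 1) * q ≤ Y then wt (A + (k + 1) * q) else 0) ≤
      Real.log Y * (1 + Real.log Y) / q := by
    have h3 : ∀ k ∈ range Y, (if A + (k + 1) * q ≤ Y then wt (A + (k + 1) * q) else 0) ≤
        (Real.log Y / q) * ((k : ℝ) + 1)⁻¹ := by
      intro k _
      split_ifs with hk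
      · unfold wt
        have h4 : (0 : ℝ) < ((k : ℝ) + 1) * q := by positivity
        have h5 : ((k : ℝ) + 1) * q ≤ ((A + (k + 1) * q : ℕ) : ℝ) := by
          push_cast
          have : (0 : ℝ) ≤ A := Nat.cast_nonneg A
          linarith
        have h6 : Real.log ((A + (k + 1) * q : ℕ) : ℝ) ≤ Real.log Y :=
          Real.log_le_log (by linarith) (by exact_mod_cast hk)
        calc _ ≤ Real.log Y / (((k : ℝ) + 1) * q) := by gcongr
          _ = _ := by field_simp
      · positivity
    refine (Finset.sum_le_sum h3).trans ?_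
    rw [← Finset.mul_sum]
    have h4 : ∑ k ∈ range Y, ((k : ℝ) + 1)⁻¹ ≤ 1 + Real.log Y := by
      have h5 := harmonic_le_one_add_log Y
      unfold harmonic at h5
      push_cast at h5
      exact h5
    calc _ ≤ (Real.log Y / q) * (1 + Real.log Y) := by gcongr
      _ = _ := by ring
  have h3 : (if A + 0 * q ≤ Y then wt (A + 0 * q) else 0) ≤ 1 := by
    split_ifs
    · exact wt_le_one _
    · norm_num
  linarith

lemma VS_split {q a Y n : ℕ} (hn : Y ≤ n) :
    VS (Cl q a) n = VS (Cl q a) Y + ∑ m ∈ Ioc Y n, wt m * (if m.Prime ∧ m ≡ a [MOD q] then 1 else 0) := by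
  classical
  unfold VS
  have h1 : range (n + 1) = range (Y + 1) ∪ Ioc Y n := by
    ext m
    simp only [mem_range, mem_union, mem_Ioc]
    omega
  have h2 : Disjoint (range (Y + 1)) (Ioc Y n) := by
    rw [Finset.disjoint_left]
    intro m hm hm2
    rw [mem_range] at hm
    rw [mem_Ioc] at hm2
    omega
  rw [h1, Finset.sum_union h2]
  congr 1
  refine Finset.sum_congr rfl fun m _ => ?_
  by_cases h : m.Prime ∧ m ≡ a [MOD q]
  · rw [if_pos h, if_pos ⟨h.2, h.1⟩, mul_one]
  · rw [if_neg h, if_neg fun h1 => h ⟨h1.2, h1.1⟩, mul_zero]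

lemma VSu_split {Y n : ℕ} (hn : Y ≤ n) :
    VS Set.univ n = VS Set.univ Y + ∑ m ∈ Ioc Y n, wt m * (if m.Prime then 1 else 0) := by
  classical
  unfold VS
  have h1 : range (n + 1) = range (Y + 1) ∪ Ioc Y n := by
    ext m
    simp only [mem_range, mem_union, mem_Ioc]
    omega
  have h2 : Disjoint (range (Y + 1)) (Ioc Y n) := by
    rw [Finset.disjoint_left]
    intro m hm hm2
    rw [mem_range] at hm
    rw [mem_Ioc] at hm2
    omega
  rw [h1, Finset.sum_union h2]
  congr 1
  refine Finset.sum_congr rfl fun m _ => ?_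
  by_cases h : m.Prime
  · rw [if_pos h, if_pos ⟨Set.mem_univ _, h⟩, mul_one]
  · rw [if_neg h, if_neg fun h1 => h h1.2, mul_zero]

/-- **Mertens' theorem in progressions, uniformly in the modulus.** -/
theorem mer : ∃ C : ℝ, 0 ≤ C ∧ ∀ q : ℕ, 1 ≤ q → ∀ a : ℕ, a.Coprime q → ∀ n : ℕ, 1 ≤ n →
    |VS (Cl q a) n - Real.log n / Nat.totient q| ≤ C := by
  obtain ⟨x0, hx0⟩ := Pool.Agent.H387R2.Uni.siegel
  obtain ⟨c, hc, hφ⟩ := H343.phi_bound (1 / 2) (by norm_num)
  obtain ⟨C1, hC1, hV⟩ := VS_univ_bound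
  set L0 : ℝ := Real.log (x0 + 16) + 1 with hL0
  have hL00 : 1 ≤ L0 := by
    have : 0 ≤ Real.log ((x0 : ℝ) + 16) := Real.log_nonneg (by linarith [Nat.cast_nonneg (α := ℝ) x0])
    linarith
  -- constants
  set K1 : ℝ := 1 + (L0 + 2) * (L0 + 3) with hK1
  set K2 : ℝ := (L0 + 2) / c with hK2
  refine ⟨K1 + K2 + C1 * 2 + 10, by positivity, fun q hq a ha n hn => ?_⟩
  classical
  have hq1 : (1 : ℝ) ≤ q := by exact_mod_cast hq
  have hq0 : (0 : ℝ) < q := by linarith
  have hsq1 : 1 ≤ Real.sqrt q := by rw [Real.one_le_sqrt]; exact hq1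
  have hsq := Real.mul_self_sqrt hq0.le
  have hφ1 : (1 : ℝ) ≤ Nat.totient q := by exact_mod_cast Nat.totient_pos.2 hq
  have hφ0 : (0 : ℝ) < Nat.totient q := by linarith
  have hφq : c * Real.sqrt q ≤ Nat.totient q := by
    have := hφ q hq
    rw [show (1 : ℝ) - 1 / 2 = 1 / 2 by norm_num, ← Real.sqrt_eq_rpow] at this
    exact this
  -- the threshold
  obtain ⟨Y, hY⟩ : ∃ Y : ℕ, Y = x0 + 16 + ⌈Real.exp (Real.sqrt q)⌉₊ := ⟨_, rfl⟩
  have hYx : x0 ≤ Y := by omega
  have hY16 : 16 ≤ Y := by omega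
  have hYe : Real.exp (Real.sqrt q) ≤ Y := by
    refine (Nat.le_ceil _).trans ?_
    exact_mod_cast (by omega : ⌈Real.exp (Real.sqrt q)⌉₊ ≤ Y)
  have hY0 : (0 : ℝ) < Y := by exact_mod_cast (by omega : 0 < Y)
  have hlY : Real.log Y ≤ L0 + 1 + Real.sqrt q := by
    have h1 : (Y : ℝ) ≤ (x0 + 16) * (Real.exp (Real.sqrt q) * Real.exp 1) := by
      have h2 : (Y : ℝ) ≤ x0 + 16 + (Real.exp (Real.sqrt q) + 1) := by
        rw [hY]
        push_cast
        have := (Nat.ceil_lt_add_one (Real.exp_pos (Real.sqrt q)).le).le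
        linarith
      have h3 : 1 ≤ Real.exp (Real.sqrt q) := Real.one_le_exp (by linarith)
      have h4 : (2 : ℝ) ≤ Real.exp 1 := by
        have := Real.exp_one_gt_d9
        linarith
      have h5 : (0 : ℝ) ≤ x0 := Nat.cast_nonneg x0
      nlinarith [mul_le_mul h3 h4 (by norm_num) (by positivity)]
    have h2 : Real.log Y ≤ Real.log ((x0 + 16) * (Real.exp (Real.sqrt q) * Real.exp 1)) :=
      Real.log_le_log hY0 h1
    rw [Real.log_mul (by positivity) (by positivity), Real.log_mul (by positivity) (by positivity),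
      Real.log_exp, Real.log_exp] at h2
    linarith
  have hlYs : Real.log Y ≤ (L0 + 2) * Real.sqrt q := by nlinarith
  have hlY0 : 0 ≤ Real.log Y := Real.log_natCast_nonneg Y
  have hVY : VS (Cl q a) Y ≤ K1 := by
    refine (triv hq a Y (by omega)).trans ?_
    rw [hK1]
    have h1 : Real.log Y * (1 + Real.log Y) ≤ ((L0 + 2) * (L0 + 3)) * q := by
      calc Real.log Y * (1 + Real.log Y) ≤ ((L0 + 2) * Real.sqrt q) * ((L0 + 3) * Real.sqrt q) := by
            refine mul_le_mul hlYs (by nlinarith) (by positivity) (by positivity)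
        _ = ((L0 + 2) * (L0 + 3)) * (Real.sqrt q * Real.sqrt q) := by ring
        _ = _ := by rw [hsq]
    have h2 : Real.log Y * (1 + Real.log Y) / q ≤ (L0 + 2) * (L0 + 3) := by
      rw [div_le_iff₀ hq0]; exact h1
    linarith
  have hLφ : Real.log Y / Nat.totient q ≤ K2 := by
    rw [hK2, div_le_div_iff₀ hφ0 hc]
    calc Real.log Y * c ≤ ((L0 + 2) * Real.sqrt q) * c := by gcongr
      _ = (L0 + 2) * (c * Real.sqrt q) := by ring
      _ ≤ _ := by gcongr
  rcases le_or_gt n Y with hnY | hnY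
  · -- small `n`
    have h1 : VS (Cl q a) n ≤ K1 := (VS_mono _ hnY).trans hVY
    have h2 : 0 ≤ VS (Cl q a) n := VS_nonneg _ n
    have h3 : Real.log n / Nat.totient q ≤ K2 := by
      refine le_trans ?_ hLφ
      have : Real.log n ≤ Real.log Y := Real.log_le_log (by exact_mod_cast hn) (by exact_mod_cast hnY)
      gcongr
    have h4 : 0 ≤ Real.log n / Nat.totient q := div_nonneg (Real.log_natCast_nonneg n) hφ0.le
    have hK2' : 0 ≤ K2 := by positivity
    have hK1' : 0 ≤ K1 := by positivity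
    rw [abs_le]
    constructor <;> linarith
  · -- large `n`
    have hYn : Y ≤ n := hnY.le
    set e : ℕ → ℝ := fun m => (if m.Prime ∧ m ≡ a [MOD q] then (1 : ℝ) else 0) -
      (if m.Prime then 1 else 0) / Nat.totient q with he
    have hE : ∀ m, ∑ j ∈ Icc 1 m, e j = H343E.piAP m q a - H343E.pi1 m / Nat.totient q := by
      intro m
      rw [he, Finset.sum_sub_distrib, ← Finset.sum_div]
      unfold H343E.piAP H343E.pi1
      rw [Finset.card_filter, Finset.card_filter]
      push_cast
      rfl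
    -- reduction of the residue
    have hmodeq : ∀ m, H343E.piAP m q a = H343E.piAP m q (a % q) := by
      intro m
      unfold H343E.piAP
      congr 2
      ext p
      simp only [mem_filter]
      refine and_congr_right fun _ => and_congr_right fun _ => ?_
      exact ⟨fun h => h.trans (Nat.mod_modEq a q).symm, fun h => h.trans (Nat.mod_modEq a q)⟩
    have hEb : ∀ m, Y ≤ m → |∑ j ∈ Icc 1 m, e j| ≤ m / Real.log m ^ 6 := by
      intro m hm
      rw [hE, hmodeq]
      refine hx0 m (hYx.trans hm) q hq ?_ (a % q) (Nat.mod_lt _ hq) ?_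
      · have h1 : Real.sqrt q ≤ Real.log m := by
          rw [Real.le_log_iff_exp_le (by exact_mod_cast (by omega : 0 < m))]
          exact hYe.trans (by exact_mod_cast hm)
        calc (q : ℝ) = Real.sqrt q * Real.sqrt q := hsq.symm
          _ ≤ Real.log m * Real.log m := by gcongr
          _ = _ := by ring
      · unfold Nat.Coprime at ha ⊢
        rw [← Nat.gcd_rec q a, Nat.gcd_comm]
        exact ha
    have hpt := parts e hYn
    have htl := tail hY16 hYn (E := fun m => ∑ j ∈ Icc 1 m, e j) hEb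
    have hbd : ∀ m, Y ≤ m → |wt m * ∑ j ∈ Icc 1 m, e j| ≤ 1 := by
      intro m hm
      have hm0 : (0 : ℝ) < m := by exact_mod_cast (by omega : 0 < m)
      have hlm : 1 ≤ Real.log m := by
        rw [Real.le_log_iff_exp_le hm0]
        have h1 := Real.exp_one_lt_d9
        have h2 : (16 : ℝ) ≤ m := by exact_mod_cast hY16.trans hm
        linarith
      rw [abs_mul, abs_of_nonneg (wt_nonneg m)]
      calc wt m * |∑ j ∈ Icc 1 m, e j| ≤ wt m * (m / Real.log m ^ 6) := by
            have := wt_nonneg m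
            have := hEb m hm
            gcongr
        _ = 1 / Real.log m ^ 5 := by
            unfold wt
            field_simp
        _ ≤ 1 := by
            rw [div_le_one (by positivity)]
            exact one_le_pow₀ hlm
    have h1 := hbd n hYn
    have h2 := hbd Y le_rfl
    have hsum : |∑ m ∈ Ioc Y n, wt m * e m| ≤ 3 := by
      have h3 := hpt.trans htl
      rw [abs_le] at h1 h2 h3 ⊢
      constructor <;> linarith [h1.1, h1.2, h2.1, h2.2, h3.1, h3.2]
    have hsplit : ∑ m ∈ Ioc Y n, wt m * e m =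
        ∑ m ∈ Ioc Y n, wt m * (if m.Prime ∧ m ≡ a [MOD q] then 1 else 0) -
        (∑ m ∈ Ioc Y n, wt m * (if m.Prime then 1 else 0)) / Nat.totient q := by
      rw [Finset.sum_div, ← Finset.sum_sub_distrib]
      refine Finset.sum_congr rfl fun m _ => ?_
      rw [he]
      ring
    have hA := VS_split (q := q) (a := a) hYn
    have hB := VSu_split hYn
    have hu1 := hV n (by omega)
    have hu2 := hV Y (by omega)
    have hVY0 : 0 ≤ VS (Cl q a) Y := VS_nonneg _ Y
    have key : VS (Cl q a) n - Real.log n / Nat.totient q =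
        VS (Cl q a) Y + ∑ m ∈ Ioc Y n, wt m * e m - Real.log Y / Nat.totient q +
        ((VS Set.univ n - Real.log n) - (VS Set.univ Y - Real.log Y)) / Nat.totient q := by
      have h3 : ∑ m ∈ Ioc Y n, wt m * (if m.Prime ∧ m ≡ a [MOD q] then 1 else 0) =
          VS (Cl q a) n - VS (Cl q a) Y := by linarith
      have h4 : ∑ m ∈ Ioc Y n, wt m * (if m.Prime then 1 else 0) = VS Set.univ n - VS Set.univ Y := by
        linarith
      rw [hsplit, h3, h4]
      ring
    have h5 : |((VS Set.univ n - Real.log n) - (VS Set.univ Y - Real.log Y)) / Nat.totient q| ≤ C1 * 2 := by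
      rw [abs_div, abs_of_pos hφ0, div_le_iff₀ hφ0]
      have h6 := abs_sub (VS Set.univ n - Real.log n) (VS Set.univ Y - Real.log Y)
      have h7 : 0 ≤ C1 * 2 := by positivity
      nlinarith
    have h6 : 0 ≤ Real.log Y / Nat.totient q := div_nonneg hlY0 hφ0.le
    rw [key]
    rw [abs_le] at h5 hsum ⊢
    have hK2' : 0 ≤ K2 := by positivity
    constructor <;> linarith [h5.1, h5.2, hsum.1, hsum.2]

/-- residue classes have infinite weight -/
lemma Cl_div {q a : ℕ} (hq : 1 ≤ q) (ha : a.Coprime q) : Tendsto (VS (Cl q a)) atTop atTop := by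
  obtain ⟨C, hC, h⟩ := mer
  have hφ0 : (0 : ℝ) < Nat.totient q := by exact_mod_cast Nat.totient_pos.2 hq
  have h1 : Tendsto (fun n : ℕ => Real.log n / Nat.totient q + -C) atTop atTop :=
    tendsto_atTop_add_const_right _ _ ((Real.tendsto_log_atTop.comp tendsto_natCast_atTop_atTop).atTop_div_const hφ0)
  refine tendsto_atTop_mono' _ ?_ h1
  filter_upwards [eventually_ge_atTop 1] with n hn
  have := (abs_le.1 (h q hq a ha n hn)).1
  linarith

end Pool.Agent.Q43.UN
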