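import Pool.Agent.Q43.UN.Fam
import Pool.Agent.Q43.UN.Mer

set_option autoImplicit false

/-!
# The law for the primes in progressions, uniformly in the modulus
-/

namespace Pool.Agent.Q43.UN

open Finset Filter Topology MeasureTheory
open scoped ENNReal
open Pool.Agent.TH888.R
open Pool.Agent.H305R2 (roughPart)

section

variable {Ω : Type*} [MeasurableSpace Ω] {μ : Measure Ω} [IsFiniteMeasure μ] {f m : ℕ → Ω → ℝ} {c : Ω → ℝ}

/-- **Countable families of sets of primes.** -/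
theorem fam (h : Sys μ f m c) {ι : Type} [Countable ι] (S : ι → Set ℕ)
    (hS : ∀ i, Tendsto (VS (S i)) atTop atTop) {b : ι → ℝ} (hb : ∀ i, 0 < b i) (hbs : Summable b) :
    ∀ᵐ x ∂μ, ∃ B : ℝ, 0 ≤ B ∧ ∀ i, ∀ n : ℕ, 3 ≤ n → |FS f (S i) n x - c x * VS (S i) n| ≤
      B * (Real.sqrt (b i)⁻¹ + 1) * gr (VS (S i) n * (1 + Real.log (Real.log n))) := by
  obtain ⟨D, A, hD, hA, P, key⟩ := lawI h
  choose Z hZm hZi hZ using fun i => key (S i) (hS i)
  have hT : ∫⁻ x, ∑' i, ENNReal.ofReal (b i) * Z i x ∂μ < ⊤ := by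
    rw [lintegral_tsum fun i => (hZm i).const_mul _]
    have h1 : ∀ i, ∫⁻ x, ENNReal.ofReal (b i) * Z i x ∂μ ≤ ENNReal.ofReal (b i) * ENNReal.ofReal D := by
      intro i
      rw [lintegral_const_mul'' _ (hZm i)]
      gcongr
      exact hZi i
    refine (ENNReal.tsum_le_tsum h1).trans_lt ?_
    rw [ENNReal.tsum_mul_right]
    exact ENNReal.mul_lt_top (by
      rw [← ENNReal.ofReal_tsum_of_nonneg (fun i => (hb i).le) hbs]
      exact ENNReal.ofReal_lt_top) ENNReal.ofReal_lt_top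
  have hTm : AEMeasurable (fun x => ∑' i, ENNReal.ofReal (b i) * Z i x) μ :=
    AEMeasurable.ennreal_tsum fun i => (hZm i).const_mul _
  filter_upwards [ae_lt_top' hTm hT.ne, ae_all_iff.2 hZ] with x hx hZx
  obtain ⟨T, hTdef⟩ : ∃ T : ℝ≥0∞, T = ∑' i, ENNReal.ofReal (b i) * Z i x := ⟨_, rfl⟩
  rw [← hTdef] at hx
  have hle : ∀ i, ENNReal.ofReal (b i) * Z i x ≤ T := fun i => by
    rw [hTdef]; exact ENNReal.le_tsum i
  have hfin : ∀ i, Z i x ≠ ⊤ := by
    intro i hi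
    have h1 := hle i
    rw [hi, ENNReal.mul_top (by simpa using hb i)] at h1
    exact absurd (lt_of_le_of_lt h1 hx) (lt_irrefl _)
  have hZT : ∀ i, (Z i x).toReal ≤ T.toReal * (b i)⁻¹ := by
    intro i
    have h1 := ENNReal.toReal_mono hx.ne (hle i)
    rw [ENNReal.toReal_mul, ENNReal.toReal_ofReal (hb i).le] at h1
    rw [← div_eq_mul_inv, le_div_iff₀ (hb i)]
    linarith
  refine ⟨A * Real.sqrt T.toReal + A + P * (1 + |c x|), by positivity, fun i n hn => ?_⟩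
  refine (hZx i (hfin i) n hn).trans ?_
  have hv0 : 0 ≤ VS (S i) n * (1 + Real.log (Real.log n)) := by
    have := loglog_nonneg hn
    have := VS_nonneg (S i) n
    positivity
  refine mul_le_mul_of_nonneg_right ?_ (zero_le_one.trans (one_le_gr hv0))
  have h1 : Real.sqrt (Z i x).toReal ≤ Real.sqrt T.toReal * Real.sqrt (b i)⁻¹ := by
    rw [← Real.sqrt_mul ENNReal.toReal_nonneg]
    exact Real.sqrt_le_sqrt (hZT i)
  have h2 := Real.sqrt_nonneg (b i)⁻¹
  have h3 := Real.sqrt_nonneg T.toReal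
  have h4 : (0 : ℝ) ≤ P * (1 + |c x|) := by positivity
  calc A * (Real.sqrt (Z i x).toReal + 1) + P * (1 + |c x|) ≤
      A * (Real.sqrt T.toReal * Real.sqrt (b i)⁻¹ + 1) + P * (1 + |c x|) := by gcongr
    _ ≤ (A * Real.sqrt T.toReal + A + P * (1 + |c x|)) * (Real.sqrt (b i)⁻¹ + 1) := by
      have h5 : 0 ≤ A * Real.sqrt T.toReal := by positivity
      have h6 : 0 ≤ A * Real.sqrt (b i)⁻¹ := by positivity
      have h7 : 0 ≤ P * (1 + |c x|) * Real.sqrt (b i)⁻¹ := by positivity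
      nlinarith

open Classical in
/-- from the functions to the counting functions, uniformly in the set -/
lemma cS_FS (h : Sys μ f m c) {s : ℕ → ℕ} {x : Ω}
    (hx : ∃ P : ℕ, ∀ p ≥ P, p.Prime → f p x = if (roughPart p (s p)).Prime then 1 else 0) :
    ∃ P : ℕ, ∀ S : Set ℕ, ∀ n : ℕ, |(cS S s n : ℝ) - FS f S n x| ≤ P := by
  obtain ⟨P, hP⟩ := hx
  refine ⟨P, fun S n => ?_⟩
  have e1 : (cS S s n : ℝ) = ∑ p ∈ range (n + 1),
      if p.Prime ∧ p ∈ S ∧ (roughPart p (s p)).Prime then (1 : ℝ) else 0 := by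
    unfold cS
    rw [Finset.card_eq_sum_ones, Finset.sum_filter]
    push_cast
    rfl
  rw [e1]
  unfold FS
  rw [← Finset.sum_sub_distrib]
  have h1 : ∑ p ∈ range (n + 1), |(if p.Prime ∧ p ∈ S ∧ (roughPart p (s p)).Prime then (1 : ℝ) else 0) -
      if p ∈ S ∧ p.Prime then f p x else 0| ≤ ∑ p ∈ range (n + 1), if p < P then (1 : ℝ) else 0 := by
    refine Finset.sum_le_sum fun p _ => ?_
    by_cases hp : P ≤ p
    · rw [if_neg (by omega : ¬ p < P)]
      by_cases h2 : p ∈ S ∧ p.Prime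
      · rw [if_pos h2, hP p hp h2.2]
        by_cases h3 : (roughPart p (s p)).Prime
        · rw [if_pos ⟨h2.2, h2.1, h3⟩, if_pos h3]
          norm_num
        · rw [if_neg (fun h => h3 h.2.2), if_neg h3]
          norm_num
      · rw [if_neg h2, if_neg (fun h => h2 ⟨h.2.1, h.1⟩)]
        norm_num
    · rw [if_pos (by omega : p < P)]
      have h3 := h.f0 p x
      have h4 := h.f1 p x
      rw [abs_le]
      split_ifs <;> constructor <;> linarith
  have h2 : ∑ p ∈ range (n + 1), (if p < P then (1 : ℝ) else 0) ≤ P := by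
    rw [Finset.sum_ite, Finset.sum_const_zero, add_zero, Finset.sum_const, nsmul_eq_mul, mul_one]
    have : ((range (n + 1)).filter (fun q => q < P)).card ≤ P := by
      calc _ ≤ (range P).card := Finset.card_le_card fun q hq => by
              rw [mem_filter] at hq
              exact mem_range.2 hq.2
        _ = P := Finset.card_range P
    exact_mod_cast this
  exact (Finset.abs_sum_le_sum_abs _ _).trans (h1.trans h2)

end

/-- The law in progressions, uniformly in the modulus, at one point, for the integers `s p`. -/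
def UPt (s : ℕ → ℕ) (c : ℝ) : Prop := ∀ ε : ℝ, 0 < ε → ∃ B : ℝ, 0 ≤ B ∧ ∀ n : ℕ, 3 ≤ n →
  ∀ q a : ℕ, 1 ≤ q → a.Coprime q →
    |(cS (Cl q a) s n : ℝ) - c * (Real.log n / Nat.totient q)| ≤
      B * ((q : ℝ) ^ (1 / 2 + ε) * Real.log n ^ (1 / 2 + ε))

lemma gr_le_rpow {η : ℝ} (hη : 0 < η) {v : ℝ} (hv : 0 ≤ v) :
    gr v ≤ (1 + 2 / η) ^ 2 * (1 + v) ^ (1 / 2 + η) := by
  unfold gr
  have hy : 1 ≤ 1 + v := by linarith
  have hy0 : 0 < 1 + v := by linarith
  have h1 : Real.log (1 + v) ≤ (1 + v) ^ (η / 2) / (η / 2) :=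
    Real.log_le_rpow_div hy0.le (by positivity)
  have h2 : 1 ≤ (1 + v) ^ (η / 2) := Real.one_le_rpow hy (by positivity)
  have h3 : 1 + Real.log (1 + v) ≤ (1 + 2 / η) * (1 + v) ^ (η / 2) := by
    have : (1 + v) ^ (η / 2) / (η / 2) = 2 / η * (1 + v) ^ (η / 2) := by field_simp
    rw [this] at h1
    nlinarith
  have h4 : 0 ≤ 1 + Real.log (1 + v) := by
    have := Real.log_nonneg hy
    linarith
  have h5 : Real.sqrt (1 + v) = (1 + v) ^ ((1 : ℝ) / 2) := Real.sqrt_eq_rpow _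
  rw [h5]
  calc (1 + v) ^ ((1 : ℝ) / 2) * (1 + Real.log (1 + v)) ^ 2 ≤
      (1 + v) ^ ((1 : ℝ) / 2) * ((1 + 2 / η) * (1 + v) ^ (η / 2)) ^ 2 := by gcongr
    _ = (1 + 2 / η) ^ 2 * ((1 + v) ^ ((1 : ℝ) / 2) * ((1 + v) ^ (η / 2)) ^ 2) := by ring
    _ = _ := by
        rw [← Real.rpow_natCast ((1 + v) ^ (η / 2)) 2, ← Real.rpow_mul hy0.le, ← Real.rpow_add hy0]
        congr 2
        push_cast
        ring

/-- the numerical part -/
lemma numer {ε : ℝ} (hε : 0 < ε) (hε1 : ε ≤ 1) (κ : ℝ) :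
    ∃ K : ℝ, 0 ≤ K ∧ ∀ n : ℕ, 3 ≤ n → ∀ q a : ℕ, 1 ≤ q → a.Coprime q → (q : ℝ) ≤ Real.log n →
      ∀ F B : ℝ, 0 ≤ B → |F - κ * VS (Cl q a) n| ≤
        B * (Real.sqrt (((q : ℝ) + 1) ^ (-(2 + ε)))⁻¹ + 1) * gr (VS (Cl q a) n * (1 + Real.log (Real.log n))) →
        |F - κ * (Real.log n / Nat.totient q)| ≤
          (B + 1) * K * ((q : ℝ) ^ (1 / 2 + ε) * Real.log n ^ (1 / 2 + ε)) := by
  obtain ⟨C, hC, hmer⟩ := mer
  obtain ⟨c, hc, hφ⟩ := H343.phi_bound ε hε
  set η : ℝ := ε / 4 with hη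
  have hη0 : 0 < η := by positivity
  set G : ℝ := (1 + 2 / η) ^ 2 with hG
  set D : ℝ := (1 + (1 + C) * (1 + 1 / η)) with hD
  have hD1 : 1 ≤ D := by
    have : 0 ≤ (1 + C) * (1 + 1 / η) := by positivity
    linarith
  refine ⟨9 * G * (D * (1 + c⁻¹)) ^ (1 / 2 + η) + |κ| * C, by positivity, ?_⟩
  intro n hn q a hq ha hqn F B hB hF
  set ℓ := Real.log n with hℓ
  have hq1 : (1 : ℝ) ≤ q := by exact_mod_cast hq
  have hq0 : (0 : ℝ) < q := by linarith
  have hℓ1 : 1 ≤ ℓ := hq1.trans hqn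
  have hℓ0 : 0 < ℓ := by linarith
  have hφ1 : (1 : ℝ) ≤ Nat.totient q := by exact_mod_cast Nat.totient_pos.2 hq
  have hφ0 : (0 : ℝ) < Nat.totient q := by linarith
  have hφq : (Nat.totient q : ℝ) ≤ q := by exact_mod_cast Nat.totient_le q
  have hφl := hφ q hq
  set V := VS (Cl q a) n with hV
  have hV0 : 0 ≤ V := VS_nonneg _ n
  have hm := hmer q hq a ha n (by omega)
  rw [← hV, ← hℓ] at hm
  set R := ℓ / Nat.totient q with hR
  have hR1 : 1 ≤ R := by
    rw [hR, le_div_iff₀ hφ0, one_mul]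
    exact hφq.trans hqn
  have hVR : V ≤ (1 + C) * R := by
    have := (abs_le.1 hm).2
    nlinarith
  have hll : 0 ≤ Real.log ℓ := Real.log_nonneg hℓ1
  have hll2 : 1 + Real.log ℓ ≤ (1 + 1 / η) * ℓ ^ η := by
    have h1 : Real.log ℓ ≤ ℓ ^ η / η := Real.log_le_rpow_div hℓ0.le hη0
    have h2 : 1 ≤ ℓ ^ η := Real.one_le_rpow hℓ1 hη0.le
    have h3 : ℓ ^ η / η = 1 / η * ℓ ^ η := by ring
    rw [h3] at h1
    nlinarith
  set v := V * (1 + Real.log ℓ) with hv
  have hv0 : 0 ≤ v := by positivity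
  have hv1 : 1 + v ≤ D * R * ℓ ^ η := by
    have h1 : v ≤ ((1 + C) * R) * ((1 + 1 / η) * ℓ ^ η) := by
      rw [hv]; gcongr
    have h2 : 1 ≤ R * ℓ ^ η := one_le_mul_of_one_le_of_one_le hR1 (Real.one_le_rpow hℓ1 hη0.le)
    rw [hD]
    calc 1 + v ≤ R * ℓ ^ η + ((1 + C) * R) * ((1 + 1 / η) * ℓ ^ η) := by linarith
      _ = _ := by ring
  have hR2 : R ≤ (1 + c⁻¹) * (ℓ * (q : ℝ) ^ (-(1 - ε))) := by
    rw [hR]
    have h1 : 0 < c * (q : ℝ) ^ (1 - ε) := by positivity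
    calc ℓ / Nat.totient q ≤ ℓ / (c * (q : ℝ) ^ (1 - ε)) := by gcongr
      _ = c⁻¹ * (ℓ * (q : ℝ) ^ (-(1 - ε))) := by
          rw [Real.rpow_neg hq0.le]
          field_simp
      _ ≤ _ := by
          gcongr
          linarith
  -- the main bound
  have hgr : gr v ≤ G * ((D * (1 + c⁻¹)) ^ (1 / 2 + η) * (ℓ ^ (1 / 2 + ε) * (q : ℝ) ^ (-(1 / 2 - ε / 2)))) := by
    refine (gr_le_rpow hη0 hv0).trans ?_
    rw [hG]
    refine mul_le_mul_of_nonneg_left ?_ (by positivity)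
    have h1 : 1 + v ≤ (D * (1 + c⁻¹)) * (ℓ ^ (1 + η) * (q : ℝ) ^ (-(1 - ε))) := by
      calc 1 + v ≤ D * R * ℓ ^ η := hv1
        _ ≤ D * ((1 + c⁻¹) * (ℓ * (q : ℝ) ^ (-(1 - ε)))) * ℓ ^ η := by gcongr
        _ = (D * (1 + c⁻¹)) * ((ℓ * ℓ ^ η) * (q : ℝ) ^ (-(1 - ε))) := by ring
        _ = _ := by
            congr 3
            rw [Real.rpow_add hℓ0, Real.rpow_one]
    calc (1 + v) ^ (1 / 2 + η) ≤ ((D * (1 + c⁻¹)) * (ℓ ^ (1 + η) * (q : ℝ) ^ (-(1 - ε)))) ^ (1 / 2 + η) := by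
          gcongr
      _ = (D * (1 + c⁻¹)) ^ (1 / 2 + η) * ((ℓ ^ (1 + η)) ^ (1 / 2 + η) * ((q : ℝ) ^ (-(1 - ε))) ^ (1 / 2 + η)) := by
          rw [Real.mul_rpow (x := D * (1 + c⁻¹)) (by positivity) (by positivity),
            Real.mul_rpow (x := ℓ ^ (1 + η)) (by positivity) (by positivity)]
      _ ≤ _ := by
          refine mul_le_mul_of_nonneg_left ?_ (by positivity)
          refine mul_le_mul ?_ ?_ (by positivity) (by positivity)
          · rw [← Real.rpow_mul hℓ0.le]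
            refine Real.rpow_le_rpow_of_exponent_le hℓ1 ?_
            rw [hη]
            nlinarith
          · rw [← Real.rpow_mul hq0.le]
            refine Real.rpow_le_rpow_of_exponent_le hq1 ?_
            have : 0 ≤ (1 - ε) * η := mul_nonneg (by linarith) hη0.le
            nlinarith
  have hbq : Real.sqrt (((q : ℝ) + 1) ^ (-(2 + ε)))⁻¹ + 1 ≤ 9 * (q : ℝ) ^ (1 + ε / 2) := by
    have h1 : (((q : ℝ) + 1) ^ (-(2 + ε)))⁻¹ = ((q : ℝ) + 1) ^ (2 + ε) := by
      rw [Real.rpow_neg (by positivity), inv_inv]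
    rw [h1, Real.sqrt_eq_rpow, ← Real.rpow_mul (by positivity)]
    have h2 : (2 + ε) * (1 / 2) = 1 + ε / 2 := by ring
    rw [h2]
    have h3 : ((q : ℝ) + 1) ^ (1 + ε / 2) ≤ 8 * (q : ℝ) ^ (1 + ε / 2) := by
      calc ((q : ℝ) + 1) ^ (1 + ε / 2) ≤ (2 * (q : ℝ)) ^ (1 + ε / 2) := by
            gcongr
            linarith
        _ = 2 ^ (1 + ε / 2) * (q : ℝ) ^ (1 + ε / 2) := Real.mul_rpow (by norm_num) hq0.le
        _ ≤ 8 * (q : ℝ) ^ (1 + ε / 2) := by
            gcongr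
            calc (2 : ℝ) ^ (1 + ε / 2) ≤ 2 ^ (3 : ℝ) := by
                  refine Real.rpow_le_rpow_of_exponent_le (by norm_num) ?_
                  linarith
              _ = 8 := by
                  rw [show (3 : ℝ) = ((3 : ℕ) : ℝ) by norm_num, Real.rpow_natCast]
                  norm_num
    have h4 : 1 ≤ (q : ℝ) ^ (1 + ε / 2) := Real.one_le_rpow hq1 (by positivity)
    linarith
  have hA : |F - κ * V| ≤ B * (9 * G * (D * (1 + c⁻¹)) ^ (1 / 2 + η)) *
      ((q : ℝ) ^ (1 / 2 + ε) * ℓ ^ (1 / 2 + ε)) := by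
    refine hF.trans ?_
    calc B * (Real.sqrt (((q : ℝ) + 1) ^ (-(2 + ε)))⁻¹ + 1) * gr v ≤
        B * (9 * (q : ℝ) ^ (1 + ε / 2)) * (G * ((D * (1 + c⁻¹)) ^ (1 / 2 + η) *
          (ℓ ^ (1 / 2 + ε) * (q : ℝ) ^ (-(1 / 2 - ε / 2))))) := by
          refine mul_le_mul (mul_le_mul_of_nonneg_left hbq hB) hgr (zero_le_one.trans (one_le_gr hv0))
            (by positivity)
      _ = B * (9 * G * (D * (1 + c⁻¹)) ^ (1 / 2 + η)) *
          (((q : ℝ) ^ (1 + ε / 2) * (q : ℝ) ^ (-(1 / 2 - ε / 2))) * ℓ ^ (1 / 2 + ε)) := by ring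
      _ = _ := by
          rw [← Real.rpow_add hq0]
          congr 3
          ring
  have hX : 1 ≤ (q : ℝ) ^ (1 / 2 + ε) * ℓ ^ (1 / 2 + ε) :=
    one_le_mul_of_one_le_of_one_le (Real.one_le_rpow hq1 (by positivity)) (Real.one_le_rpow hℓ1 (by positivity))
  have hB2 : |κ * V - κ * R| ≤ |κ| * C := by
    rw [← mul_sub, abs_mul]
    gcongr
  set X := (q : ℝ) ^ (1 / 2 + ε) * ℓ ^ (1 / 2 + ε) with hXd
  set K1 := 9 * G * (D * (1 + c⁻¹)) ^ (1 / 2 + η) with hK1
  have hK10 : 0 ≤ K1 := by positivity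
  have hκC : 0 ≤ |κ| * C := by positivity
  calc |F - κ * R| = |(F - κ * V) + (κ * V - κ * R)| := by congr 1; ring
    _ ≤ |F - κ * V| + |κ * V - κ * R| := abs_add_le _ _
    _ ≤ B * K1 * X + |κ| * C * 1 := by linarith
    _ ≤ B * K1 * X + |κ| * C * X := by gcongr
    _ ≤ (B + 1) * (K1 + |κ| * C) * X := by
        have h0 : 0 ≤ B * (|κ| * C) * X := by positivity
        have h1 : 0 ≤ K1 * X := by positivity
        nlinarith

section

variable {Ω : Type*} [MeasurableSpace Ω] {μ : Measure Ω} [IsFiniteMeasure μ] {f m : ℕ → Ω → ℝ} {c : Ω → ℝ}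

lemma Cl_mod (q a : ℕ) : Cl q (a % q) = Cl q a := by
  ext p
  exact ⟨fun h => h.trans (Nat.mod_modEq a q), fun h => h.trans (Nat.mod_modEq a q).symm⟩

/-- **The law in progressions, uniformly in the modulus.** -/
theorem upt (h : Sys μ f m c) {s : Ω → ℕ → ℕ}
    (hs : ∀ᵐ x ∂μ, ∃ P : ℕ, ∀ p ≥ P, p.Prime → f p x = if (roughPart p (s x p)).Prime then 1 else 0) :
    ∀ᵐ x ∂μ, UPt (s x) (c x) := by
  classical
  have key : ∀ k : ℕ, ∀ᵐ x ∂μ, ∃ B : ℝ, 0 ≤ B ∧ ∀ n : ℕ, 3 ≤ n →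
      ∀ q a : ℕ, 1 ≤ q → a.Coprime q →
      |(cS (Cl q a) (s x) n : ℝ) - c x * (Real.log n / Nat.totient q)| ≤
        B * ((q : ℝ) ^ (1 / 2 + 1 / ((k : ℝ) + 1)) * Real.log n ^ (1 / 2 + 1 / ((k : ℝ) + 1))) := by
    intro k
    set ε : ℝ := 1 / ((k : ℝ) + 1) with hε
    have hε0 : 0 < ε := by positivity
    have hε1 : ε ≤ 1 := by
      rw [hε, div_le_one (by positivity)]
      linarith [Nat.cast_nonneg (α := ℝ) k]
    set S : ℕ × ℕ → Set ℕ := fun i => if 1 ≤ i.1 ∧ i.2.Coprime i.1 then Cl i.1 i.2 else Set.univ with hS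
    set b : ℕ × ℕ → ℝ := fun i => ((i.1 : ℝ) + 1) ^ (-(1 + ε / 2)) * ((i.2 : ℝ) + 1) ^ (-(1 + ε / 2)) with hbd
    have hsum1 : Summable (fun j : ℕ => ((j : ℝ) + 1) ^ (-(1 + ε / 2))) := by
      have h1 : Summable (fun j : ℕ => (j : ℝ) ^ (-(1 + ε / 2))) := Real.summable_nat_rpow.2 (by linarith)
      have h2 := (summable_nat_add_iff (f := fun j : ℕ => (j : ℝ) ^ (-(1 + ε / 2))) 1).mpr h1
      refine h2.congr fun j => ?_
      push_cast
      rfl
    have hfam := fam h S (fun i => by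
      simp only [hS]
      split_ifs with hi
      · exact Cl_div hi.1 hi.2
      · exact VS_univ_tendsto) (b := b) (fun i => by positivity)
      (hsum1.mul_of_nonneg hsum1 (fun j => by positivity) fun j => by positivity)
    filter_upwards [hfam, hs] with x hx hsx
    obtain ⟨B, hB, hBx⟩ := hx
    obtain ⟨P, hP⟩ := cS_FS h hsx
    obtain ⟨K, hK, hnum⟩ := numer hε0 hε1 (c x)
    have hBP : 0 ≤ B + P := by positivity
    have hlog : ∀ n : ℕ, 3 ≤ n → 1 ≤ Real.log n := by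
      intro n hn
      have h3 : (3 : ℝ) ≤ n := by exact_mod_cast hn
      rw [Real.le_log_iff_exp_le (by linarith)]
      have := Real.exp_one_lt_d9
      linarith
    -- small moduli
    have hsm : ∀ n : ℕ, 3 ≤ n → ∀ q a : ℕ, 1 ≤ q → a.Coprime q → (q : ℝ) ≤ Real.log n →
        |(cS (Cl q a) (s x) n : ℝ) - c x * (Real.log n / Nat.totient q)| ≤
          (B + P + 1) * K * ((q : ℝ) ^ (1 / 2 + ε) * Real.log n ^ (1 / 2 + ε)) := by
      intro n hn q a hq ha hqn
      have hq0 : (0 : ℝ) < (q : ℝ) + 1 := by positivity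
      have haq : a % q < q := Nat.mod_lt _ hq
      have hac : (a % q).Coprime q := by
        unfold Nat.Coprime at ha ⊢
        rw [← Nat.gcd_rec q a, Nat.gcd_comm]
        exact ha
      have hSi : S (q, a % q) = Cl q a := by
        simp only [hS]
        rw [if_pos ⟨hq, hac⟩, Cl_mod]
      refine hnum n hn q a hq ha hqn _ (B + P) hBP ?_
      have h1 := hBx (q, a % q) n hn
      rw [hSi] at h1
      have h2 := hP (Cl q a) n
      have hbi : (b (q, a % q))⁻¹ ≤ (((q : ℝ) + 1) ^ (-(2 + ε)))⁻¹ := by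
        simp only [hbd]
        gcongr
        have h3 : ((q : ℝ) + 1) ^ (-(2 + ε)) = ((q : ℝ) + 1) ^ (-(1 + ε / 2)) * ((q : ℝ) + 1) ^ (-(1 + ε / 2)) := by
          rw [← Real.rpow_add hq0]
          congr 1
          ring
        rw [h3]
        refine mul_le_mul_of_nonneg_left ?_ (by positivity)
        refine Real.rpow_le_rpow_of_nonpos (by positivity) ?_ (by linarith)
        have : ((a % q : ℕ) : ℝ) ≤ q := by exact_mod_cast haq.le
        linarith
      have h4 := Real.sqrt_le_sqrt hbi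
      set g1 := gr (VS (Cl q a) n * (1 + Real.log (Real.log n))) with hg1
      have hg : 1 ≤ g1 := by
        rw [hg1]
        refine one_le_gr ?_
        have := loglog_nonneg hn
        have := VS_nonneg (Cl q a) n
        positivity
      set r1 := Real.sqrt (((q : ℝ) + 1) ^ (-(2 + ε)))⁻¹ with hr1
      have hr0 : 0 ≤ r1 := Real.sqrt_nonneg _
      calc |(cS (Cl q a) (s x) n : ℝ) - c x * VS (Cl q a) n| =
          |((cS (Cl q a) (s x) n : ℝ) - FS f (Cl q a) n x) + (FS f (Cl q a) n x - c x * VS (Cl q a) n)| := by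
            congr 1; ring
        _ ≤ P + B * (Real.sqrt (b (q, a % q))⁻¹ + 1) * g1 := (abs_add_le _ _).trans (add_le_add h2 h1)
        _ ≤ P * ((r1 + 1) * g1) + B * (r1 + 1) * g1 := by
            refine add_le_add ?_ ?_
            · refine le_mul_of_one_le_right (Nat.cast_nonneg P) ?_
              nlinarith
            · gcongr
        _ = _ := by ring
    set K2 := (B + P + 1) * K with hK2
    have hK20 : 0 ≤ K2 := by positivity
    refine ⟨K2 + 2 * |c x|, by positivity, fun n hn q a hq ha => ?_⟩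
    have hℓ1 := hlog n hn
    set ℓ := Real.log n with hℓ
    have hℓ0 : 0 < ℓ := by linarith
    have hq1 : (1 : ℝ) ≤ q := by exact_mod_cast hq
    have hq0 : (0 : ℝ) < q := by linarith
    have hX0 : 0 ≤ (q : ℝ) ^ (1 / 2 + ε) * ℓ ^ (1 / 2 + ε) := by positivity
    rcases le_or_gt (q : ℝ) ℓ with hqn | hqn
    · refine (hsm n hn q a hq ha hqn).trans ?_
      refine mul_le_mul_of_nonneg_right ?_ hX0
      have := abs_nonneg (c x)
      linarith
    · have h1 := hsm n hn 1 0 le_rfl (Nat.coprime_one_right 0) (by push_cast; exact hℓ1)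
      rw [Nat.totient_one, Nat.cast_one, div_one, Real.one_rpow, one_mul, ← hℓ] at h1
      have h2 : (cS (Cl q a) (s x) n : ℝ) ≤ cS (Cl 1 0) (s x) n := by
        have : cS (Cl q a) (s x) n ≤ cS (Cl 1 0) (s x) n := by
          unfold cS
          refine Finset.card_le_card fun p hp => ?_
          rw [mem_filter] at hp ⊢
          exact ⟨hp.1, hp.2.1, Nat.modEq_one, hp.2.2.2⟩
        exact_mod_cast this
      have h3 := (abs_le.1 h1).2
      have hφ1 : (1 : ℝ) ≤ Nat.totient q := by exact_mod_cast Nat.totient_pos.2 hq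
      have hφ0 : (0 : ℝ) < Nat.totient q := by linarith
      have h4 : ℓ / Nat.totient q ≤ ℓ := div_le_self hℓ0.le hφ1
      have h4' : 0 ≤ ℓ / Nat.totient q := by positivity
      have h5 : ℓ ≤ (q : ℝ) ^ (1 / 2 + ε) * ℓ ^ (1 / 2 + ε) := by
        calc ℓ = ℓ ^ ((1 : ℝ) / 2) * ℓ ^ ((1 : ℝ) / 2) := by
              rw [← Real.rpow_add hℓ0]; norm_num
          _ ≤ (q : ℝ) ^ ((1 : ℝ) / 2) * ℓ ^ ((1 : ℝ) / 2) := by gcongr
          _ ≤ _ := by
              refine mul_le_mul ?_ ?_ (by positivity) (by positivity)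
              · exact Real.rpow_le_rpow_of_exponent_le hq1 (by linarith)
              · exact Real.rpow_le_rpow_of_exponent_le hℓ1 (by linarith)
      have h6 : ℓ ^ (1 / 2 + ε) ≤ (q : ℝ) ^ (1 / 2 + ε) * ℓ ^ (1 / 2 + ε) :=
        le_mul_of_one_le_left (by positivity) (Real.one_le_rpow hq1 (by positivity))
      set X := (q : ℝ) ^ (1 / 2 + ε) * ℓ ^ (1 / 2 + ε) with hX
      have h7 : c x * ℓ ≤ |c x| * X :=
        (mul_le_mul_of_nonneg_right (le_abs_self _) hℓ0.le).trans (mul_le_mul_of_nonneg_left h5 (abs_nonneg _))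
      have h8 : |c x * (ℓ / Nat.totient q)| ≤ |c x| * X := by
        rw [abs_mul, abs_of_nonneg h4']
        exact mul_le_mul_of_nonneg_left (h4.trans h5) (abs_nonneg _)
      have h9 : K2 * ℓ ^ (1 / 2 + ε) ≤ K2 * X := mul_le_mul_of_nonneg_left h6 hK20
      have h10 : (0 : ℝ) ≤ cS (Cl q a) (s x) n := Nat.cast_nonneg _
      have h11 := abs_le.1 h8
      have h12 : 0 ≤ |c x| * X := by positivity
      have h13 : 0 ≤ K2 * X := by positivity
      rw [abs_le]
      constructor <;> nlinarith [h11.1, h11.2]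
  filter_upwards [ae_all_iff.2 key] with x hx ε hε
  obtain ⟨k, hk⟩ := exists_nat_one_div_lt hε
  obtain ⟨B, hB, hBx⟩ := hx k
  refine ⟨B, hB, fun n hn q a hq ha => (hBx n hn q a hq ha).trans ?_⟩
  have hq1 : (1 : ℝ) ≤ q := by exact_mod_cast hq
  have hℓ1 : 1 ≤ Real.log n := by
    have h3 : (3 : ℝ) ≤ n := by exact_mod_cast hn
    rw [Real.le_log_iff_exp_le (by linarith)]
    have := Real.exp_one_lt_d9
    linarith
  refine mul_le_mul_of_nonneg_left ?_ hB
  refine mul_le_mul ?_ ?_ (by positivity) (by positivity)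
  · exact Real.rpow_le_rpow_of_exponent_le hq1 (by linarith)
  · exact Real.rpow_le_rpow_of_exponent_le hℓ1 (by linarith)

end

end Pool.Agent.Q43.UN
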